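import Pool.Agent.CapFive.Spec

/-!
# Large caps in PG(5, q): the arcs of parameters (norm circles)
-/

set_option autoImplicit false

noncomputable section

namespace Pool.Agent.CapFive

open Finset Pool.Agent.Caps
open scoped Classical

section

variable {F E : Type} [Field F] [Field E] [Algebra F E] {σ : E →+* E}

private theorem arc_three (hσ : ∀ y : F, σ (algebraMap F E y) = algebraMap F E y) {ρ : E}
    (hρ : 1 + ρ ≠ 0) {g : Fin 3 → E} (hg : Function.Injective g) (hn : ∀ i, g i * σ (g i) = ρ)
    (l : Fin 3 → F) (h1 : ∑ i, algebraMap F E (l i) * g i = 0)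
    (h2 : ∑ i, algebraMap F E (l i) * (1 + g i * σ (g i)) = 0) : ∀ i, l i = 0 := by
  have inj : Function.Injective (algebraMap F E) := (algebraMap F E).injective
  have hz : ∀ i, algebraMap F E (l i) = 0 → l i = 0 := fun i h =>
    inj (h.trans (map_zero _).symm)
  rw [Fin.sum_univ_three] at h1 h2
  have n0 := hn 0
  have n1 := hn 1
  have n2 := hn 2
  have hs : (algebraMap F E (l 0) + algebraMap F E (l 1) + algebraMap F E (l 2)) * (1 + ρ) = 0 := by
    rw [n0, n1, n2] at h2
    linear_combination h2
  have hs' := (mul_eq_zero.1 hs).resolve_right hρ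
  have s0 := hσ (l 0)
  have s1 := hσ (l 1)
  have s2 := hσ (l 2)
  have hg1 : g 1 - g 0 ≠ 0 := sub_ne_zero.2 fun h => absurd (hg h) (by decide)
  have hg2 : g 2 - g 0 ≠ 0 := sub_ne_zero.2 fun h => absurd (hg h) (by decide)
  have hg12 : g 1 - g 2 ≠ 0 := sub_ne_zero.2 fun h => absurd (hg h) (by decide)
  have K1 : algebraMap F E (l 1) * (g 1 - g 0) + algebraMap F E (l 2) * (g 2 - g 0) = 0 := by
    linear_combination h1 - g 0 * hs'
  have K2 : algebraMap F E (l 1) * (σ (g 1) - σ (g 0)) +
      algebraMap F E (l 2) * (σ (g 2) - σ (g 0)) = 0 := by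
    have := congrArg σ K1
    rwa [map_add, map_mul, map_mul, map_sub, map_sub, s1, s2, map_zero] at this
  have fin : ∀ (h : algebraMap F E (l 1) = 0) (h' : algebraMap F E (l 2) = 0), ∀ i, l i = 0 := by
    intro h h'
    have h0 : algebraMap F E (l 0) = 0 := by
      rw [h, h', add_zero, add_zero] at hs'
      exact hs'
    intro i
    fin_cases i
    · exact hz 0 h0
    · exact hz 1 h
    · exact hz 2 h'
  by_cases c1 : algebraMap F E (l 1) = 0
  · refine fin c1 ?_
    rw [c1, zero_mul, zero_add] at K1
    exact (mul_eq_zero.1 K1).resolve_right hg2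
  by_cases c2 : algebraMap F E (l 2) = 0
  · refine fin ?_ c2
    rw [c2, zero_mul, add_zero] at K1
    exact (mul_eq_zero.1 K1).resolve_right hg1
  exfalso
  have key : algebraMap F E (l 1) * (algebraMap F E (l 1) + algebraMap F E (l 2)) *
      ((g 1 - g 0) * (σ (g 1) - σ (g 0))) = 0 := by
    linear_combination algebraMap F E (l 1) * algebraMap F E (l 2) * (n1 - n0) +
      algebraMap F E (l 2) ^ 2 * (n2 - n0) -
      (algebraMap F E (l 2) * σ (g 0) + algebraMap F E (l 2) * (σ (g 2) - σ (g 0))) * K1 +
      (algebraMap F E (l 1) * (g 1 - g 0) - algebraMap F E (l 2) * g 0) * K2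
  have hsg : σ (g 1) - σ (g 0) ≠ 0 := by
    rw [← map_sub]
    exact fun h => hg1 (σ.injective (h.trans (map_zero σ).symm))
  have h3 : algebraMap F E (l 1) + algebraMap F E (l 2) = 0 :=
    (mul_eq_zero.1 ((mul_eq_zero.1 key).resolve_right (mul_ne_zero hg1 hsg))).resolve_left c1
  have h4 : algebraMap F E (l 1) * (g 1 - g 2) = 0 := by
    linear_combination K1 - (g 2 - g 0) * h3
  exact mul_ne_zero c1 hg12 h4

private theorem arc_pair (h20 : (2 : E) = 0) (hσ : ∀ y : F, σ (algebraMap F E y) = algebraMap F E y)
    {ρ : E} (hρ : ρ ≠ 0) {g h : E} (hg : g * σ g = ρ) (hh : h * σ h = ρ) (hne : g ≠ h) (l m : F)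
    (h1 : algebraMap F E l * g + algebraMap F E m * h = 0) : l = 0 ∧ m = 0 := by
  have inj : Function.Injective (algebraMap F E) := (algebraMap F E).injective
  have h2 : algebraMap F E l * σ g + algebraMap F E m * σ h = 0 := by
    have := congrArg σ h1
    rwa [map_add, map_mul, map_mul, hσ, hσ, map_zero] at this
  have h3 : (algebraMap F E l - algebraMap F E m) ^ 2 * ρ = 0 := by
    have e1 : algebraMap F E l ^ 2 * ρ = algebraMap F E m ^ 2 * ρ := by
      linear_combination algebraMap F E l * σ g * h1 - algebraMap F E m * h * h2 -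
        algebraMap F E l ^ 2 * hg + algebraMap F E m ^ 2 * hh
    linear_combination e1 + (algebraMap F E m ^ 2 - algebraMap F E l * algebraMap F E m) * ρ * h20
  have h4 : algebraMap F E l = algebraMap F E m :=
    sub_eq_zero.1 (pow_eq_zero_iff (two_ne_zero)|>.1 ((mul_eq_zero.1 h3).resolve_right hρ))
  have h5 : algebraMap F E m * (g - h) = 0 := by
    linear_combination h1 - g * h4 - algebraMap F E m * h * h20
  have h6 : algebraMap F E m = 0 := (mul_eq_zero.1 h5).resolve_right (sub_ne_zero.2 hne)
  exact ⟨inj ((h4.trans h6).trans (map_zero _).symm), inj (h6.trans (map_zero _).symm)⟩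

end

/-- The arcs exist. -/
theorem tArc : S_Arc := by
  intro F E _ _ _ _ _ σ N T hQ
  have inj : Function.Injective (algebraMap F E) := (algebraMap F E).injective
  have hmem : ∀ (r : F) (g : E), g ∈ univ.filter (fun x => N x = r) →
      g * σ g = algebraMap F E r := by
    intro r g hg
    rw [← (mem_filter.1 hg).2, hQ.nrm]
  have hone : ∀ r : F, r ≠ 1 → algebraMap F E r ≠ 1 := fun r h h' =>
    h (inj (h'.trans (map_one _).symm))
  have hzero : ∀ r : F, r ≠ 0 → algebraMap F E r ≠ 0 := fun r h h' =>
    h (inj (h'.trans (map_zero _).symm))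
  have hneg : ∀ r : F, r ≠ -1 → 1 + algebraMap F E r ≠ 0 := fun r h h' =>
    h (inj (by rw [map_neg, map_one]; linear_combination h'))
  have htwo : ∀ r : F, r ≠ 1 → r ≠ -1 → ∀ g h : E, g * σ g = algebraMap F E r →
      h * σ h = algebraMap F E r → g * σ h ≠ 1 := by
    intro r h1 h2 g h hg hh he
    have e1 : σ g * h = 1 := by
      have := congrArg σ he
      rwa [map_mul, hQ.inv, map_one] at this
    have e2 : (algebraMap F E r - 1) * (1 + algebraMap F E r) = 0 := by
      have : algebraMap F E r * algebraMap F E r = 1 := by
        calc algebraMap F E r * algebraMap F E r = (g * σ g) * (h * σ h) := by rw [hg, hh]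
          _ = (g * σ h) * (σ g * h) := by ring
          _ = 1 := by rw [he, e1, mul_one]
      linear_combination this
    rcases mul_eq_zero.1 e2 with e | e
    · exact hone r h1 (sub_eq_zero.1 e)
    · exact hneg r h2 e
  constructor
  · intro _ h5
    obtain ⟨r, hr⟩ : ∃ r : F, r ∉ ({0, 1, -1} : Finset F) := by
      by_contra hc
      push Not at hc
      have h6 : Fintype.card F ≤ ({0, 1, -1} : Finset F).card := by
        rw [← card_univ]
        exact card_le_card fun x _ => hc x
      have h7 : ({0, 1, -1} : Finset F).card ≤ 3 := card_le_three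
      omega
    simp only [mem_insert, mem_singleton, not_or] at hr
    obtain ⟨r0, r1, r2⟩ := hr
    refine ⟨univ.filter fun x => N x = r, hQ.cnt r r0, ?_, ?_, ?_⟩
    · intro g hg
      rw [hmem r g hg]
      exact hone r r1
    · intro g hg h hh
      exact htwo r r1 r2 g h (hmem r g hg) (hmem r h hh)
    · intro g hg hm l h1 h2
      exact arc_three hQ.fixed (hneg r r2) hg (fun i => hmem r _ (hm i)) l h1 h2
  · intro he h4
    have h20 : (2 : F) = 0 := by
      have h1 : ringChar F = 2 := FiniteField.even_card_iff_char_two.2 (Nat.even_iff.1 he)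
      have h2 := ringChar.Nat.cast_ringChar (R := F)
      rw [h1] at h2
      exact_mod_cast h2
    have h20' : (2 : E) = 0 := by
      have := congrArg (algebraMap F E) h20
      rwa [map_ofNat, map_zero] at this
    obtain ⟨r, hr⟩ : ∃ r : F, r ∉ ({0, 1} : Finset F) := by
      by_contra hc
      push Not at hc
      have h6 : Fintype.card F ≤ ({0, 1} : Finset F).card := by
        rw [← card_univ]
        exact card_le_card fun x _ => hc x
      have h7 : ({0, 1} : Finset F).card ≤ 2 := card_le_two
      omega
    simp only [mem_insert, mem_singleton, not_or] at hr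
    obtain ⟨r0, r1⟩ := hr
    have r2 : r ≠ -1 := by
      intro h
      exact r1 (by linear_combination h - h20)
    have hN0 : N 0 = 0 := by
      have h1 := hQ.nrm 0
      rw [zero_mul] at h1
      exact inj (h1.trans (map_zero _).symm)
    have hni : (0 : E) ∉ univ.filter fun x => N x = r := by
      rw [mem_filter, hN0]
      exact fun h => r0 h.2.symm
    refine ⟨insert 0 (univ.filter fun x => N x = r), ?_, ?_, ?_, ?_⟩
    · rw [card_insert_of_notMem hni, hQ.cnt r r0]
    · intro g hg
      rcases mem_insert.1 hg with rfl | hg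
      · rw [zero_mul]
        exact zero_ne_one
      · rw [hmem r g hg]
        exact hone r r1
    · intro g hg h hh
      rcases mem_insert.1 hg with rfl | hg
      · rw [zero_mul]
        exact zero_ne_one
      rcases mem_insert.1 hh with rfl | hh
      · rw [map_zero, mul_zero]
        exact zero_ne_one
      exact htwo r r1 r2 g h (hmem r g hg) (hmem r h hh)
    · intro g hg hm l h1 h2
      have hc : ∀ i, g i = 0 ∨ g i * σ (g i) = algebraMap F E r := by
        intro i
        rcases mem_insert.1 (hm i) with h | h
        · exact Or.inl h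
        · exact Or.inr (hmem r _ h)
      have hd : ∀ i j, i ≠ j → g i = 0 → g j * σ (g j) = algebraMap F E r := by
        intro i j hij h0
        rcases hc j with h | h
        · exact absurd (hg (h0.trans h.symm)) hij
        · exact h
      have hz : ∀ i, algebraMap F E (l i) = 0 → l i = 0 := fun i h =>
        inj (h.trans (map_zero _).symm)
      by_cases c0 : g 0 = 0
      · rw [Fin.sum_univ_three] at h1 h2
        have := arc_pair h20' hQ.fixed (hzero r r0) (hd 0 1 (by decide) c0) (hd 0 2 (by decide) c0)
          (fun h => absurd (hg h) (by decide)) (l 1) (l 2) (by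
            rw [c0, mul_zero, zero_add] at h1
            exact h1)
        rw [this.1, this.2, c0] at h2
        simp only [map_zero, zero_mul, add_zero, mul_one] at h2
        intro i
        fin_cases i
        · exact hz 0 h2
        · exact this.1
        · exact this.2
      by_cases c1 : g 1 = 0
      · rw [Fin.sum_univ_three] at h1 h2
        have := arc_pair h20' hQ.fixed (hzero r r0) (hd 1 0 (by decide) c1) (hd 1 2 (by decide) c1)
          (fun h => absurd (hg h) (by decide)) (l 0) (l 2) (by
            rw [c1, mul_zero, add_zero] at h1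
            exact h1)
        rw [this.1, this.2, c1] at h2
        simp only [map_zero, zero_mul, add_zero, mul_one, zero_add] at h2
        intro i
        fin_cases i
        · exact this.1
        · exact hz 1 h2
        · exact this.2
      by_cases c2 : g 2 = 0
      · rw [Fin.sum_univ_three] at h1 h2
        have := arc_pair h20' hQ.fixed (hzero r r0) (hd 2 0 (by decide) c2) (hd 2 1 (by decide) c2)
          (fun h => absurd (hg h) (by decide)) (l 0) (l 1) (by
            rw [c2, mul_zero, add_zero] at h1
            exact h1)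
        rw [this.1, this.2, c2] at h2
        simp only [map_zero, zero_mul, add_zero, mul_one, zero_add] at h2
        intro i
        fin_cases i
        · exact this.1
        · exact this.2
        · exact hz 2 h2
      refine arc_three hQ.fixed (hneg r r2) hg (fun i => ?_) l h1 h2
      fin_cases i
      · exact (hc 0).resolve_left c0
      · exact (hc 1).resolve_left c1
      · exact (hc 2).resolve_left c2

end Pool.Agent.CapFive
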