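import Mathlib
import Pool.Agent.Caps.Defs

/-!
# Large caps in PG(5, q) made of imaginary line pairs

Every `S_X : Prop` of this file is to be proved as `theorem tX : S_X` (with the `S_Y` named under Uses as
explicit hypotheses) in `CapFive/X.lean`. The docstrings contain the complete proofs.

Idea. `F` a field with `q` elements, `E` its quadratic extension, `σ` the conjugation, `N`, `T` norm and trace. For
`a ∈ E^3` the quadratic form `N(a_0 x_0 + a_1 x_1 + a_2 x_2)` on `F^3` is a point `wv a` of PG(5, F) (its six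
coefficients). If `a`, `σ a` are independent it is a pair of conjugate imaginary lines of PG(2, F), whose common point
(vertex) is the cross product `κ(a) = a × σ a`. THREE DIFFERENT IMAGINARY LINE PAIRS ON A LINE OF PG(5, F) HAVE THE SAME
VERTEX (`S_Key`). So if for every point `v` of PG(2, F) one takes an arc of imaginary line pairs with vertex `v` (they lie in a
plane of PG(5, F)), the union is a cap. There are such arcs with `q + 1` points (`q` odd, `q ≥ 5`), and with `q + 2` points
(`q` even, `q ≥ 4`). Hence caps with `(q+1)(q^2+q+1)`, `(q+2)(q^2+q+1)` points.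
-/

noncomputable section

namespace Pool.Agent.CapFive

open Finset Pool.Agent.Caps
open scoped Classical

/-- `N` vectors of `F^n`, any three of which are linearly independent -/
def Fam (F : Type) [Field F] (n N : ℕ) : Prop :=
  ∃ p : Fin N → (Fin n → F), ∀ i j k, i ≠ j → i ≠ k → j ≠ k → LinearIndependent F ![p i, p j, p k]

/-- (80 lines) **From families to caps.** Uses nothing.
PROOF. `p i ≠ 0` and `p i`, `p j` are not proportional for `i ≠ j` (take a third index, `3 ≤ N`). `K` = image of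
`i ↦ Projectivization.mk F (p i) _`, an injective map, so `K.card = N`. `IsCap`: if a subspace `W` of dimension 2 contained three
different points of `K` (`Set.two_lt_ncard_iff`), then `W` would contain three linearly independent vectors (look at
`Pool.Agent.Caps.isCap_emb` in `Pool/Agent/Caps/Proj.lean` for a similar proof; `Projectivization.submodule_mk`,
`LinearIndependent.fintype_card_le_finrank` for the family in `W`). `N ≤ capMax F d`: `le_csSup`; the set of the sizes is bounded by the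
number of points of the projective space (finite). -/
def S_Conv : Prop :=
  ∀ (F : Type) [Field F] [Fintype F] (d N : ℕ), 3 ≤ N → Fam F (d + 1) N →
    (∃ K : Finset (Projectivization F (Fin (d + 1) → F)), IsCap F d K ∧ K.card = N) ∧
      N ≤ capMax F d

/-- (130 lines) **Product with an affine elliptic quadric.** Uses nothing.
PROOF. The map `x ↦ x^2 + x` of `F` is not injective (`0` and `-1`), so not surjective: there is `n0` with `x^2 + x + n0 ≠ 0` for
all `x`. Put `f(x,y) = x^2 + x y + n0 y^2`; `f(x,y) = 0` only for `x = y = 0`. New family, indexed by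
`Fin N × F × F` (card `N * q^2`; transport to `Fin (q^2 * N)` by `Fintype.equivFin`-like equivalences):
`P(i,x,y) = Fin.append (p i) ![x, y, f(x,y)]`. Let `α P_1 + β P_2 + γ P_3 = 0`, three different indices.
Then `α p(i_1) + β p(i_2) + γ p(i_3) = 0`. If the `i` are all different: `α = β = γ = 0`. If exactly two agree, say
`i_1 = i_2 ≠ i_3`: `(α+β) p(i_1) + γ p(i_3) = 0`, so `γ = 0`, `β = -α` (two of the vectors are independent), and then
`α ((x_1,y_1) - (x_2,y_2)) = 0` gives `α = 0`. If all agree: `α+β+γ = 0`; put `u = (x_1-x_3, y_1-y_3)`, `w = (x_2-x_3, y_2-y_3)`, both `≠ 0`,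
`u ≠ w`; then `α u + β w = 0` and, since `f(z+u) = f(z) + B(z,u) + f(u)` with `B` bilinear, `α f(u) + β f(w) = 0`. If `α ≠ 0` then `β ≠ 0`
(as `u ≠ 0`) and `u = -(β/α) w`, so `(β^2/α + β) f(w) = 0`, `β = -α`, `u = w`: contradiction. So `α = 0`, `β = 0`, `γ = 0`. -/
def S_Prod : Prop :=
  ∀ (F : Type) [Field F] [Fintype F] (n N : ℕ), 3 ≤ N → Fam F n N →
    Fam F (n + 3) (Fintype.card F ^ 2 * N)

/-! ## The quadratic extension -/

/-- `E` is the quadratic extension of `F`, `σ` the conjugation, `N` the norm, `T` the trace. -/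
structure QE (F E : Type) [Field F] [Field E] [Fintype F] [Fintype E] [Algebra F E] (σ : E →+* E)
    (N T : E → F) : Prop where
  inv : ∀ x, σ (σ x) = x
  fixed : ∀ y : F, σ (algebraMap F E y) = algebraMap F E y
  nrm : ∀ x, algebraMap F E (N x) = x * σ x
  tr : ∀ x, algebraMap F E (T x) = x + σ x
  cnt : ∀ r : F, r ≠ 0 → ((univ : Finset E).filter fun x => N x = r).card = Fintype.card F + 1
  th : ∃ θ, σ θ ≠ θ

/-- (80 lines) **Existence of the quadratic extension.** Uses nothing.
PROOF. `E = FiniteField.Extension F p 2` (`Mathlib/FieldTheory/Finite/Extension.lean`), or any field extension of degree 2;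
`|E| = q^2`. `σ x = x^q` (`FiniteField.frobeniusAlgHom` or similar), `σ (σ x) = x^(q^2) = x`. `N = Algebra.norm F`
(`FiniteField.algebraMap_norm_eq_pow`: `N x = x^(1+q)`), `T x` = the element of `F` whose image is `x + x^q` (`Algebra.trace F E`, or: an
element of `E` fixed by `x ↦ x^q` is in `F`, as `X^q - X` has only the `q` roots of `F`). `cnt`: `N : E^* → F^*` is surjective
(`FiniteField.unitsMap_norm_surjective`), so all its fibres have the same number `(q^2-1)/(q-1) = q+1` of elements (fibres of a surjective group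
homomorphism are cosets of the kernel). `th`: `X^q - X` has at most `q < q^2` roots. -/
def S_Ext : Prop :=
  ∀ (F : Type) [Field F] [Fintype F], ∃ (E : Type) (_ : Field E) (_ : Fintype E)
    (_ : Algebra F E) (σ : E →+* E) (N T : E → F), QE F E σ N T

/-! ## Vectors of length three -/

variable {E : Type} [Field E]

/-- cross product -/
def cr (a b : Fin 3 → E) : Fin 3 → E :=
  ![a 1 * b 2 - a 2 * b 1, a 2 * b 0 - a 0 * b 2, a 0 * b 1 - a 1 * b 0]

/-- dot product -/
def dt (a b : Fin 3 → E) : E := a 0 * b 0 + a 1 * b 1 + a 2 * b 2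

/-- the conjugate vector -/
def cj (σ : E →+* E) (a : Fin 3 → E) : Fin 3 → E := fun i => σ (a i)

/-- the quadratic form `N(a . x)`, for `x` with coordinates in `E` -/
def qf (σ : E →+* E) (a x : Fin 3 → E) : E := dt a x * dt (cj σ a) x

/-- the vector `κ(a) = a × σ a` -/
def ka (σ : E →+* E) (a : Fin 3 → E) : Fin 3 → E := cr a (cj σ a)

/-- (130 lines) **Three collinear imaginary line pairs have the same vertex.** Uses nothing.
PROOF. `D(a,b,c) = dt a (cr b c)` is the determinant: alternating; `dt a (cr a b) = dt b (cr a b) = 0`; `ka σ (cj σ a) = - ka σ a` and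
`σ` applied to the coordinates of `ka σ a` gives `- ka σ a`; so `dt a (ka σ b) = 0` iff `dt (cj σ a) (ka σ b) = 0` (apply `σ`).
Two facts: (F1) if `a ≠ 0` and `cr a c = 0` then `c = e • a` for some `e`. (F2) if `a`, `a'` satisfy `cr a a' ≠ 0` and `dt a w = dt a' w = 0` then
`w = e • cr a a'` for some `e` (expand `cr w (cr a a') = (w . a') a - (w . a) a' = 0` and use F1).
Assume none of the first six alternatives. Take `x = cr a b` in the hypothesis: the terms with `l`, `m` vanish, so
`D(c,a,b) = 0` or `D(cj c,a,b) = 0`. Replacing `c` by `cj σ c` (`qf` does not change, `ka` changes sign) we may assume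
`D(c,a,b) = 0`. Take `x = cr a (cj σ b)`: the terms with `l`, `m` vanish again (`qf σ b x = dt b x * dt (cj σ b) x`), so
`D(c,a,cj b) = 0` or `D(cj c,a,cj b) = 0`.
Case 1, `D(c,a,cj b) = 0`. `w = cr a c ≠ 0` by F1. `w` is orthogonal to `a, c, b, cj b`; by F2 `w = e • ka σ b` and `e ≠ 0`, so `ka σ b` is orthogonal
to `a` and `c`, hence to `cj a` and `cj c`; by F2 `ka σ b = e' • ka σ a`, `ka σ b = e'' • ka σ c`, with `e', e'' ≠ 0` as `ka σ b ≠ 0`.
Case 2, `D(cj c,a,cj b) = 0`. Apply `σ`: `D(c,cj a,b) = 0`. `w = cr b c ≠ 0` by F1. `w` is orthogonal to `b, c, a, cj a`; by F2 `w = e • ka σ a`, `e ≠ 0`,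
so `ka σ a` is orthogonal to `b` and `c`, hence to `cj b` and `cj c`, and `ka σ a` is a nonzero multiple of `ka σ b` and of `ka σ c`. -/
def S_Key : Prop :=
  ∀ (E : Type) [Field E] (σ : E →+* E), (∀ x, σ (σ x) = x) → ∀ a b c : Fin 3 → E,
    ka σ a ≠ 0 → ka σ b ≠ 0 → ka σ c ≠ 0 → ∀ l m n : E, l ≠ 0 → m ≠ 0 → n ≠ 0 →
    (∀ x, l * qf σ a x + m * qf σ b x + n * qf σ c x = 0) →
    (∃ e : E, c = e • a) ∨ (∃ e : E, c = e • cj σ a) ∨ (∃ e : E, c = e • b) ∨
    (∃ e : E, c = e • cj σ b) ∨ (∃ e : E, b = e • a) ∨ (∃ e : E, b = e • cj σ a) ∨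
    ((∃ e : E, ka σ b = e • ka σ a) ∧ ∃ e : E, ka σ c = e • ka σ a)

/-- (50 lines) **Proportional forms have the same vertex.** Uses nothing.
PROOF. Take `x = ka σ a`: `dt a x = dt (cj σ a) x = 0`, so `dt b x * dt (cj σ b) x = 0`; since `σ` applied to the coordinates of `ka σ a` gives
`- ka σ a`, both factors vanish. So `ka σ a` is orthogonal to `b` and `cj σ b`, hence a multiple of `ka σ b = cr b (cj σ b) ≠ 0` (see F1, F2 in `S_Key`), by a
nonzero factor. -/
def S_Pair : Prop :=
  ∀ (E : Type) [Field E] (σ : E →+* E), (∀ x, σ (σ x) = x) → ∀ a b : Fin 3 → E,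
    ka σ a ≠ 0 → ka σ b ≠ 0 → ∀ l m : E, m ≠ 0 → (∀ x, l * qf σ a x + m * qf σ b x = 0) →
    ∃ e : E, ka σ b = e • ka σ a

/-- (80 lines) **Forms with the same vertex.** Uses nothing. Here `a_i = L + g_i • cj σ L`.
PROOF. (1) `cj σ a = cj σ L + σ g • L`, so `ka σ a = (1 - g * σ g) • ka σ L` (bilinear, alternating).
(2) `qf σ (L + g • cj σ L) x = (1 + g σ(g)) U V + σ(g) U^2 + g V^2` with `U = dt L x`, `V = dt (cj σ L) x`. As `ka σ L ≠ 0` there is `y` (a unit vector) with
`dt (cj σ L) (cr L y) ≠ 0`; for `x = cr L y` we have `U = 0`, `V ≠ 0`: the hypothesis gives `∑ l_i g_i = 0`. In the same way `x = cr (cj σ L) y` gives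
`∑ l_i σ(g_i) = 0`. Finally the sum of these two `x` has `U ≠ 0`, `V ≠ 0`, so `∑ l_i (1 + g_i σ(g_i)) = 0`. -/
def S_Plane : Prop :=
  ∀ (E : Type) [Field E] (σ : E →+* E), (∀ x, σ (σ x) = x) → ∀ L : Fin 3 → E, ka σ L ≠ 0 →
    (∀ g : E, ka σ (L + g • cj σ L) = (1 - g * σ g) • ka σ L) ∧
    ∀ g l : Fin 3 → E, (∀ x, ∑ i, l i * qf σ (L + g i • cj σ L) x = 0) →
      ∑ i, l i * g i = 0 ∧ ∑ i, l i * (1 + g i * σ (g i)) = 0

/-! ## The arcs -/

/-- What is needed of the set of parameters `Γ`. -/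
structure Arc (F E : Type) [Field F] [Field E] [Fintype F] [Fintype E] [Algebra F E] (σ : E →+* E)
    (Γ : Finset E) : Prop where
  one : ∀ g ∈ Γ, g * σ g ≠ 1
  two : ∀ g ∈ Γ, ∀ h ∈ Γ, g * σ h ≠ 1
  three : ∀ g : Fin 3 → E, Function.Injective g → (∀ i, g i ∈ Γ) → ∀ l : Fin 3 → F,
    ∑ i, algebraMap F E (l i) * g i = 0 →
    ∑ i, algebraMap F E (l i) * (1 + g i * σ (g i)) = 0 → ∀ i, l i = 0

/-- (120 lines) **The arcs exist.** Uses nothing.
PROOF. Odd case: choose `r ∈ F`, `r ≠ 0, 1, -1` (`q ≥ 5`), `Γ = {g | N g = r}`, `q + 1` elements. `one`: `g σ(g) = r ≠ 1`. `two`: `g σ(h) = 1` would give, taking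
norms (multiply by its conjugate), `r^2 = 1`. `three`: `g_i σ(g_i) = r`, so `(1 + r) ∑ l_i = 0`, `∑ l_i = 0`. Put
`u = g_1 - g_0`, `w = g_2 - g_0`; `l_1 u + l_2 w = 0` (write `l_0 = - l_1 - l_2`). If `l_1 = 0` or `l_2 = 0` then all vanish, because `u, w ≠ 0`.
Otherwise `w = s u` with `s = - l_1/l_2 ∈ F`, `s ≠ 0, 1` (as `w ≠ 0, u`). From `(g_0+u) σ(g_0+u) = r = g_0 σ(g_0)`: `g_0 σ(u) + u σ(g_0) + u σ(u) = 0`; from
`(g_0+su) σ(g_0+su) = r` and `σ(s) = s`: `s (g_0 σ(u) + u σ(g_0)) + s^2 u σ(u) = 0`. Hence `(s^2 - s) u σ(u) = 0`: contradiction.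
Even case (characteristic 2): `r ≠ 0, 1` (`q ≥ 4`), `Γ = {g | N g = r} ∪ {0}`, `q + 2` elements. `one`, `two` as before (`0 ≠ 1`). `three`: if no `g_i` is `0`, as
before (`1 + r ≠ 0` since `-1 = 1`). If `g_0 = 0` (say): `l_1 g_1 + l_2 g_2 = 0`. If `l_1 = 0` or `l_2 = 0`, both vanish (`g_1, g_2 ≠ 0`), and then `l_0 (1 + 0) = 0`. Otherwise
`g_2 = s g_1`, `s = - l_1/l_2 ∈ F`, so `r = s^2 r`, `s^2 = 1`, `(s-1)^2 = 0` (characteristic 2), `s = 1`, `g_1 = g_2`: contradiction. -/
def S_Arc : Prop :=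
  ∀ (F E : Type) [Field F] [Field E] [Fintype F] [Fintype E] [Algebra F E] (σ : E →+* E)
    (N T : E → F), QE F E σ N T →
    (Odd (Fintype.card F) → 5 ≤ Fintype.card F →
      ∃ Γ : Finset E, Γ.card = Fintype.card F + 1 ∧ Arc F E σ Γ) ∧
    (Even (Fintype.card F) → 4 ≤ Fintype.card F →
      ∃ Γ : Finset E, Γ.card = Fintype.card F + 2 ∧ Arc F E σ Γ)

/-- (200 lines) **The family.** Uses `S_Key`, `S_Pair`, `S_Plane`.
PROOF. (A) For `v ∈ F^3`, `v ≠ 0`, there are `s, t ∈ F^3` with `cr s t = v` (e.g. for `v 0 ≠ 0`: `s = (-(v 1)/(v 0), 1, 0)`, `t = (-(v 2), 0, v 0)`, and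
cyclically). (B) Index set `Projectivization F (Fin 3 → F) × Γ`, of `(q^2+q+1) |Γ|` elements
(`Projectivization.card_of_finrank` or similar). For a point `v` take `s, t` for `v.rep`, `L v = s + θ t ∈ E^3` (`σ θ ≠ θ`), so
`ka σ (L v) = (σ θ - θ) • v.rep ≠ 0`. `a(v,g) = L v + g • cj σ (L v)`; by `S_Plane` (1) and `Arc.one` `ka σ (a(v,g))` is a nonzero multiple of
`v.rep`, so `ka σ (a(v,g))` and `ka σ (a(v',g'))` are proportional iff `v = v'` (a ratio in `E` of two nonzero vectors of `F^3` is in `F`).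
(C) The vector of `F^6` is `W a = ![N (a 0), N (a 1), N (a 2), T (a 0 * σ (a 1)), T (a 0 * σ (a 2)), T (a 1 * σ (a 2))]`, and
`qf σ a x = N(a 0) x_0^2 + N(a 1) x_1^2 + N(a 2) x_2^2 + T(a 0 σ(a 1)) x_0 x_1 + T(a 0 σ(a 2)) x_0 x_2 + T(a 1 σ(a 2)) x_1 x_2` (in `E`; expand).
So a relation `l W a + m W b + n W c = 0` with `l, m, n ∈ F` gives the relation of the forms `qf` for all `x ∈ E^3`.
(D) Three different indices with such a relation, not all of `l, m, n` zero. If all three are `≠ 0`: `S_Key`. The first six alternatives are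
impossible: `c = e • a` makes `ka σ c = (e σ e) • ka σ a`, so the points `v` agree, and then, `L` and `cj σ L` being independent (`ka σ L ≠ 0`), `e = 1` and the `g` agree;
`c = e • cj σ a` in the same way gives `e σ(g) = 1`, `g' = e`, against `Arc.two`. The last alternative says that all three points `v` agree; then
`S_Plane` (2) and `Arc.three` give `l = m = n = 0`. If exactly one is zero, `S_Pair` says that the points `v` of the other two agree; the same computation with a third
element of `Γ` (there are at least three) with coefficient `0`, `S_Plane` (2) and `Arc.three` give the contradiction. If exactly one is nonzero, say `l`: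
`qf σ a x = 0` for all `x`; then `S_Plane` (2) with coefficients `(l, 0, 0)` and `Arc.three` again (or directly `ka σ a ≠ 0`). -/
def S_Base : Prop :=
  ∀ (F E : Type) [Field F] [Field E] [Fintype F] [Fintype E] [Algebra F E] (σ : E →+* E)
    (N T : E → F), QE F E σ N T → ∀ Γ : Finset E, 3 ≤ Γ.card → Arc F E σ Γ →
      Fam F 6 (Γ.card * (Fintype.card F ^ 2 + Fintype.card F + 1))

/-- Families in all dimensions `3 s + 6`. -/
theorem fam (hProd : S_Prod) (F : Type) [Field F] [Fintype F] (N : ℕ) (hN : 3 ≤ N)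
    (h : Fam F 6 N) (s : ℕ) : Fam F (3 * s + 6) (Fintype.card F ^ (2 * s) * N) := by
  induction s with
  | zero => simpa using h
  | succ s ih =>
    have hpos : 0 < Fintype.card F := Fintype.card_pos
    have h3 : 3 ≤ Fintype.card F ^ (2 * s) * N :=
      le_trans hN (Nat.le_mul_of_pos_left _ (pow_pos hpos _))
    have h1 := hProd F (3 * s + 6) _ h3 ih
    have e1 : 3 * (s + 1) + 6 = 3 * s + 6 + 3 := by ring
    have e2 : Fintype.card F ^ (2 * (s + 1)) * N =
        Fintype.card F ^ 2 * (Fintype.card F ^ (2 * s) * N) := by ring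
    rw [e1, e2]
    exact h1

/-- **Main theorem.** -/
theorem main (hConv : S_Conv) (hProd : S_Prod) (hExt : S_Ext) (hArc : S_Arc) (hBase : S_Base)
    (F : Type) [Field F] [Fintype F] (s : ℕ) :
    (Odd (Fintype.card F) → 5 ≤ Fintype.card F →
      (∃ K : Finset (Projectivization F (Fin (3 * s + 5 + 1) → F)), IsCap F (3 * s + 5) K ∧
        K.card = Fintype.card F ^ (2 * s) *
          ((Fintype.card F + 1) * (Fintype.card F ^ 2 + Fintype.card F + 1))) ∧
      Fintype.card F ^ (2 * s) * ((Fintype.card F + 1) * (Fintype.card F ^ 2 + Fintype.card F + 1)) ≤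
        capMax F (3 * s + 5)) ∧
    (Even (Fintype.card F) → 4 ≤ Fintype.card F →
      (∃ K : Finset (Projectivization F (Fin (3 * s + 5 + 1) → F)), IsCap F (3 * s + 5) K ∧
        K.card = Fintype.card F ^ (2 * s) *
          ((Fintype.card F + 2) * (Fintype.card F ^ 2 + Fintype.card F + 1))) ∧
      Fintype.card F ^ (2 * s) * ((Fintype.card F + 2) * (Fintype.card F ^ 2 + Fintype.card F + 1)) ≤
        capMax F (3 * s + 5)) := by
  obtain ⟨E, iE, iF, iA, σ, N, T, hQ⟩ := hExt F
  obtain ⟨h1, h2⟩ := hArc F E σ N T hQ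
  have hpos : 0 < Fintype.card F := Fintype.card_pos
  have key : ∀ Γ : Finset E, 3 ≤ Γ.card → Arc F E σ Γ →
      (∃ K : Finset (Projectivization F (Fin (3 * s + 5 + 1) → F)), IsCap F (3 * s + 5) K ∧
        K.card = Fintype.card F ^ (2 * s) *
          (Γ.card * (Fintype.card F ^ 2 + Fintype.card F + 1))) ∧
      Fintype.card F ^ (2 * s) * (Γ.card * (Fintype.card F ^ 2 + Fintype.card F + 1)) ≤
        capMax F (3 * s + 5) := by
    intro Γ hΓ hA
    have h3 : 3 ≤ Γ.card * (Fintype.card F ^ 2 + Fintype.card F + 1) :=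
      le_trans hΓ (Nat.le_mul_of_pos_right _ (Nat.succ_pos _))
    have hf := fam hProd F _ h3 (hBase F E σ N T hQ Γ hΓ hA) s
    exact hConv F (3 * s + 5) _
      (le_trans h3 (Nat.le_mul_of_pos_left _ (pow_pos hpos _))) hf
  refine ⟨fun ho h5 => ?_, fun he h4 => ?_⟩
  · obtain ⟨Γ, hc, hA⟩ := h1 ho h5
    have := key Γ (by omega) hA
    rwa [hc] at this
  · obtain ⟨Γ, hc, hA⟩ := h2 he h4
    have := key Γ (by omega) hA
    rwa [hc] at this

end Pool.Agent.CapFive
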