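import Mathlib
import Pool.Agent.CapFive.Spec

/-! # The family of imaginary line pairs -/

noncomputable section

namespace Pool.Agent.CapFive

open Finset Pool.Agent.Caps
open scoped Classical

private theorem exists_cr {F : Type} [Field F] (v : Fin 3 → F) (hv : v ≠ 0) :
    ∃ s t : Fin 3 → F, cr s t = v := by
  by_cases h0 : v 0 = 0
  · by_cases h1 : v 1 = 0
    · have h2 : v 2 ≠ 0 := by
        intro h2
        apply hv
        funext i
        fin_cases i
        · exact h0
        · exact h1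
        · exact h2
      refine ⟨![1, 0, -(v 0) / v 2], ![0, v 2, -(v 1)], ?_⟩
      funext i
      fin_cases i <;> simp [cr, h0, h1]
    · refine ⟨![0, -(v 2) / v 1, 1], ![v 1, -(v 0), 0], ?_⟩
      funext i
      fin_cases i <;> simp [cr, h1]
  · refine ⟨![-(v 1) / v 0, 1, 0], ![-(v 2), 0, v 0], ?_⟩
    funext i
    fin_cases i <;> simp [cr, h0]

variable {F E : Type} [Field F] [Field E] [Fintype F] [Fintype E] [Algebra F E] {σ : E →+* E}
  {N T : E → F}

/-- coefficients in `E` -/
private def mp (F E : Type) [Field F] [Field E] [Algebra F E] (v : Fin 3 → F) : Fin 3 → E :=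
  fun i => algebraMap F E (v i)

private theorem exists_L (hQ : QE F E σ N T) : ∃ τ : E, τ ≠ 0 ∧ ∀ v : Fin 3 → F, v ≠ 0 →
    ∃ L : Fin 3 → E, ka σ L = τ • mp F E v := by
  obtain ⟨θ, hθ⟩ := hQ.th
  refine ⟨σ θ - θ, sub_ne_zero.2 hθ, fun v hv => ?_⟩
  obtain ⟨s, t, rfl⟩ := exists_cr v hv
  refine ⟨fun i => algebraMap F E (s i) + θ * algebraMap F E (t i), ?_⟩
  funext i
  fin_cases i <;> simp [ka, cr, cj, mp, hQ.fixed] <;> ring

private theorem prop_of_mp {v w : Fin 3 → F} (hv : v ≠ 0) (e : E) (h : mp F E w = e • mp F E v) :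
    ∃ f : F, w = f • v := by
  obtain ⟨i, hi⟩ : ∃ i, v i ≠ 0 := by
    by_contra hcon
    push Not at hcon
    exact hv (funext hcon)
  have hinj := (algebraMap F E).injective
  refine ⟨w i / v i, ?_⟩
  have hi' : algebraMap F E (v i) ≠ 0 := by
    rwa [Ne, map_eq_zero]
  have he : e = algebraMap F E (w i / v i) := by
    have h1 := congrFun h i
    simp only [mp, Pi.smul_apply, smul_eq_mul] at h1
    rw [map_div₀, h1]
    field_simp
  funext j
  apply hinj
  have h1 := congrFun h j
  simp only [mp, Pi.smul_apply, smul_eq_mul] at h1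
  rw [h1, he, Pi.smul_apply, smul_eq_mul, map_mul]

/-- the vector of the six coefficients -/
private def W (σ : E →+* E) (N T : E → F) (a : Fin 3 → E) : Fin 6 → F :=
  ![N (a 0), N (a 1), N (a 2), T (a 0 * σ (a 1)), T (a 0 * σ (a 2)), T (a 1 * σ (a 2))]

private theorem qf_W (hQ : QE F E σ N T) (a x : Fin 3 → E) :
    qf σ a x = algebraMap F E (W σ N T a 0) * x 0 ^ 2 + algebraMap F E (W σ N T a 1) * x 1 ^ 2 +
      algebraMap F E (W σ N T a 2) * x 2 ^ 2 + algebraMap F E (W σ N T a 3) * (x 0 * x 1) +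
      algebraMap F E (W σ N T a 4) * (x 0 * x 2) + algebraMap F E (W σ N T a 5) * (x 1 * x 2) := by
  have h0 : W σ N T a 0 = N (a 0) := rfl
  have h1 : W σ N T a 1 = N (a 1) := rfl
  have h2 : W σ N T a 2 = N (a 2) := rfl
  have h3 : W σ N T a 3 = T (a 0 * σ (a 1)) := rfl
  have h4 : W σ N T a 4 = T (a 0 * σ (a 2)) := rfl
  have h5 : W σ N T a 5 = T (a 1 * σ (a 2)) := rfl
  rw [h0, h1, h2, h3, h4, h5, hQ.nrm, hQ.nrm, hQ.nrm, hQ.tr, hQ.tr, hQ.tr]
  simp only [qf, dt, cj, map_mul, hQ.inv]
  ring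

/-- a relation between three vectors gives a relation between the forms -/
private theorem rel (hQ : QE F E σ N T) (a b c : Fin 3 → E) (l m n : F)
    (h : l • W σ N T a + m • W σ N T b + n • W σ N T c = 0) (x : Fin 3 → E) :
    algebraMap F E l * qf σ a x + algebraMap F E m * qf σ b x +
      algebraMap F E n * qf σ c x = 0 := by
  have key : ∀ i, algebraMap F E l * algebraMap F E (W σ N T a i) +
      algebraMap F E m * algebraMap F E (W σ N T b i) +
      algebraMap F E n * algebraMap F E (W σ N T c i) = 0 := by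
    intro i
    have := congrArg (algebraMap F E) (congrFun h i)
    simpa using this
  rw [qf_W hQ a, qf_W hQ b, qf_W hQ c]
  linear_combination (x 0 ^ 2) * key 0 + (x 1 ^ 2) * key 1 + (x 2 ^ 2) * key 2 +
    (x 0 * x 1) * key 3 + (x 0 * x 2) * key 4 + (x 1 * x 2) * key 5

private theorem ka_smul (e : E) (a : Fin 3 → E) : ka σ (e • a) = (e * σ e) • ka σ a := by
  funext i
  fin_cases i <;> simp [ka, cr, cj] <;> ring

private theorem ka_cj (hQ : QE F E σ N T) (a : Fin 3 → E) : ka σ (cj σ a) = (-1 : E) • ka σ a := by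
  funext i
  fin_cases i <;> simp [ka, cr, cj, hQ.inv] <;> ring

private theorem indep_L (L : Fin 3 → E) (hL : ka σ L ≠ 0) (α β : E)
    (h : α • L + β • cj σ L = 0) : α = 0 ∧ β = 0 := by
  have h1 : α • ka σ L = 0 := by
    have e : α • ka σ L = cr (α • L + β • cj σ L) (cj σ L) := by
      funext i
      fin_cases i <;> simp [ka, cr, cj] <;> ring
    rw [e, h]
    funext i
    fin_cases i <;> simp [cr]
  have h2 : β • ka σ L = 0 := by
    have e : β • ka σ L = cr L (α • L + β • cj σ L) := by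
      funext i
      fin_cases i <;> simp [ka, cr, cj] <;> ring
    rw [e, h]
    funext i
    fin_cases i <;> simp [cr]
  exact ⟨(smul_eq_zero.1 h1).resolve_right hL, (smul_eq_zero.1 h2).resolve_right hL⟩

/-- three forms with the same vertex -/
private theorem same (hPlane : S_Plane) (hQ : QE F E σ N T) {Γ : Finset E} (hΓ : Arc F E σ Γ)
    (L : Fin 3 → E) (hL : ka σ L ≠ 0) (g1 g2 g3 : E) (h1 : g1 ∈ Γ) (h2 : g2 ∈ Γ) (h3 : g3 ∈ Γ)
    (h12 : g1 ≠ g2) (h13 : g1 ≠ g3) (h23 : g2 ≠ g3) (l m n : F)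
    (h : l • W σ N T (L + g1 • cj σ L) + m • W σ N T (L + g2 • cj σ L) +
      n • W σ N T (L + g3 • cj σ L) = 0) : l = 0 ∧ m = 0 ∧ n = 0 := by
  have hr := rel hQ _ _ _ l m n h
  obtain ⟨e1, e2⟩ := (hPlane E σ hQ.inv L hL).2 ![g1, g2, g3]
    ![algebraMap F E l, algebraMap F E m, algebraMap F E n] (by
      intro x
      rw [Fin.sum_univ_three]
      exact hr x)
  have hinj : Function.Injective (![g1, g2, g3] : Fin 3 → E) := by
    intro i j hij
    fin_cases i <;> fin_cases j <;> simp_all [eq_comm]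
  have hall := hΓ.three ![g1, g2, g3] hinj (by
    intro i
    fin_cases i
    · exact h1
    · exact h2
    · exact h3) ![l, m, n] (by
      rw [Fin.sum_univ_three] at e1 ⊢
      exact e1) (by
      rw [Fin.sum_univ_three] at e2 ⊢
      exact e2)
  exact ⟨hall 0, hall 1, hall 2⟩

private theorem third {Γ : Finset E} (hc : 3 ≤ Γ.card) (g1 g2 : E) :
    ∃ g3 ∈ Γ, g1 ≠ g3 ∧ g2 ≠ g3 := by
  have h : 0 < ((Γ.erase g1).erase g2).card := by
    have h1 := Finset.pred_card_le_card_erase (s := Γ) (a := g1)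
    have h2 := Finset.pred_card_le_card_erase (s := Γ.erase g1) (a := g2)
    omega
  obtain ⟨g3, hg3⟩ := Finset.card_pos.1 h
  rw [mem_erase, mem_erase] at hg3
  exact ⟨g3, hg3.2.2, fun e => hg3.2.1 e.symm, fun e => hg3.1 e.symm⟩

/-- **The family.** -/
theorem tBase (hKey : S_Key) (hPair : S_Pair) (hPlane : S_Plane) : S_Base := by
  intro F E _ _ _ _ _ σ N T hQ Γ hc hΓ
  obtain ⟨τ, hτ, hLv⟩ := exists_L hQ
  choose! L hL using hLv
  -- the indices
  let ι := Projectivization F (Fin 3 → F) × Γ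
  let L' : Projectivization F (Fin 3 → F) → (Fin 3 → E) := fun v => L v.rep
  have hL' : ∀ v, ka σ (L' v) = τ • mp F E v.rep := fun v => hL v.rep v.rep_nonzero
  have hmp0 : ∀ v : Projectivization F (Fin 3 → F), mp F E v.rep ≠ 0 := by
    intro v h
    apply v.rep_nonzero
    funext i
    have h1 := congrFun h i
    simp only [mp, Pi.zero_apply, map_eq_zero] at h1
    exact h1
  have hL0 : ∀ v, ka σ (L' v) ≠ 0 := by
    intro v
    rw [hL' v]
    exact smul_ne_zero hτ (hmp0 v)
  let a : ι → (Fin 3 → E) := fun i => L' i.1 + (i.2 : E) • cj σ (L' i.1)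
  have hka : ∀ i : ι, ka σ (a i) = ((1 - (i.2 : E) * σ i.2) * τ) • mp F E i.1.rep := by
    intro i
    have := (hPlane E σ hQ.inv (L' i.1) (hL0 _)).1 (i.2 : E)
    rw [show a i = L' i.1 + (i.2 : E) • cj σ (L' i.1) from rfl, this, hL', smul_smul]
  have hco : ∀ i : ι, (1 - (i.2 : E) * σ i.2) * τ ≠ 0 := by
    intro i
    refine mul_ne_zero (sub_ne_zero.2 ?_) hτ
    exact fun h => hΓ.one _ i.2.2 h.symm
  have hka0 : ∀ i : ι, ka σ (a i) ≠ 0 := by
    intro i
    rw [hka i]
    exact smul_ne_zero (hco i) (hmp0 _)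
  -- proportional vertices are equal
  have hvert : ∀ i j : ι, (∃ e : E, ka σ (a j) = e • ka σ (a i)) → j.1 = i.1 := by
    rintro i j ⟨e, he⟩
    rw [hka i, hka j, smul_smul] at he
    have h1 : mp F E j.1.rep =
        (((1 - (j.2 : E) * σ j.2) * τ)⁻¹ * (e * ((1 - (i.2 : E) * σ i.2) * τ))) •
          mp F E i.1.rep := by
      rw [← smul_smul, ← he, smul_smul, inv_mul_cancel₀ (hco j), one_smul]
    obtain ⟨f, hf⟩ := prop_of_mp (v := i.1.rep) (w := j.1.rep) i.1.rep_nonzero _ h1
    have h2 := Projectivization.mk_rep j.1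
    have h3 := Projectivization.mk_rep i.1
    rw [← h2, ← h3, Projectivization.mk_eq_mk_iff']
    exact ⟨f, hf.symm⟩
  have hne : ∀ i j : ι, i ≠ j → ¬ ∃ e : E, a j = e • a i := by
    rintro i j hij ⟨e, he⟩
    have hv : j.1 = i.1 := by
      apply hvert i j
      exact ⟨e * σ e, by rw [he, ka_smul]⟩
    have h1 : (1 - e) • L' i.1 + ((j.2 : E) - e * i.2) • cj σ (L' i.1) = 0 := by
      have h2 : L' j.1 + (j.2 : E) • cj σ (L' j.1) =
          e • (L' i.1 + (i.2 : E) • cj σ (L' i.1)) := he
      rw [hv] at h2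
      have h3 : (1 - e) • L' i.1 + ((j.2 : E) - e * i.2) • cj σ (L' i.1) =
          (L' i.1 + (j.2 : E) • cj σ (L' i.1)) -
            e • (L' i.1 + (i.2 : E) • cj σ (L' i.1)) := by
        rw [smul_add, smul_smul, sub_smul, sub_smul, one_smul]
        abel
      rw [h3, h2, sub_self]
    obtain ⟨h4, h5⟩ := indep_L _ (hL0 _) _ _ h1
    have he1 : e = 1 := (sub_eq_zero.1 h4).symm
    rw [he1, one_mul, sub_eq_zero] at h5
    exact hij (Prod.ext hv.symm (Subtype.ext h5.symm))
  have hne2 : ∀ i j : ι, ¬ ∃ e : E, a j = e • cj σ (a i) := by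
    rintro i j ⟨e, he⟩
    have hv : j.1 = i.1 := by
      apply hvert i j
      refine ⟨(e * σ e) * (-1), ?_⟩
      rw [he, ka_smul, ka_cj hQ, smul_smul]
    have h1 : (1 - e * σ i.2) • L' i.1 + ((j.2 : E) - e) • cj σ (L' i.1) = 0 := by
      have h2 : L' j.1 + (j.2 : E) • cj σ (L' j.1) =
          e • cj σ (L' i.1 + (i.2 : E) • cj σ (L' i.1)) := he
      rw [hv] at h2
      have h3 : cj σ (L' i.1 + (i.2 : E) • cj σ (L' i.1)) =
          cj σ (L' i.1) + (σ i.2) • L' i.1 := by
        funext t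
        simp [cj, hQ.inv]
      rw [h3] at h2
      have h4 : (1 - e * σ i.2) • L' i.1 + ((j.2 : E) - e) • cj σ (L' i.1) =
          (L' i.1 + (j.2 : E) • cj σ (L' i.1)) -
            e • (cj σ (L' i.1) + (σ i.2) • L' i.1) := by
        rw [smul_add, smul_smul, sub_smul, sub_smul, one_smul]
        abel
      rw [h4, h2, sub_self]
    obtain ⟨h4, h5⟩ := indep_L _ (hL0 _) _ _ h1
    have he1 : (j.2 : E) = e := sub_eq_zero.1 h5
    apply hΓ.two (j.2 : E) j.2.2 (i.2 : E) i.2.2
    rw [he1]
    exact (sub_eq_zero.1 h4).symm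
  -- two forms with a relation
  have two : ∀ i j : ι, i ≠ j → ∀ l m : F, l • W σ N T (a i) + m • W σ N T (a j) = 0 → l = 0 := by
    intro i j hij l m h
    by_contra hl
    have h0 : ∀ c, l • W σ N T (a i) + m • W σ N T (a j) + (0 : F) • W σ N T c = 0 := by
      intro c
      rw [h, zero_smul, add_zero]
    by_cases hm : m = 0
    · obtain ⟨g2, hg2, h12, -⟩ := third hc (i.2 : E) (i.2 : E)
      obtain ⟨g3, hg3, h13, h23⟩ := third hc (i.2 : E) g2
      have := same hPlane hQ hΓ (L' i.1) (hL0 _) i.2 g2 g3 i.2.2 hg2 hg3 h12 h13 h23 l 0 0 (by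
        have h1 := h
        rw [hm, zero_smul, add_zero] at h1
        rw [zero_smul, zero_smul, add_zero, add_zero]
        exact h1)
      exact hl this.1
    · have hv : j.1 = i.1 := by
        apply hvert i j
        have hr := rel hQ _ _ (a j) l m 0 (h0 _)
        refine hPair E σ hQ.inv (a i) (a j) (hka0 _) (hka0 _) (algebraMap F E l)
          (algebraMap F E m) ?_ ?_
        · rwa [Ne, map_eq_zero]
        · intro x
          have := hr x
          rw [map_zero, zero_mul, add_zero] at this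
          exact this
      have hg : (i.2 : E) ≠ j.2 := by
        intro h1
        exact hij (Prod.ext hv.symm (Subtype.ext h1))
      obtain ⟨g3, hg3, h13, h23⟩ := third hc (i.2 : E) (j.2 : E)
      have := same hPlane hQ hΓ (L' i.1) (hL0 _) i.2 j.2 g3 i.2.2 j.2.2 hg3 hg h13 h23 l m 0 (by
        have h1 := h0 (L' i.1 + g3 • cj σ (L' i.1))
        have h2 : a j = L' i.1 + (j.2 : E) • cj σ (L' i.1) := by
          rw [show a j = L' j.1 + (j.2 : E) • cj σ (L' j.1) from rfl, hv]
        rw [h2] at h1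
        exact h1)
      exact hl this.1
  have three : ∀ i j k : ι, i ≠ j → i ≠ k → j ≠ k → ∀ l m n : F,
      l • W σ N T (a i) + m • W σ N T (a j) + n • W σ N T (a k) = 0 → l = 0 := by
    intro i j k hij hik hjk l m n h
    by_contra hl
    by_cases hm : m = 0
    · rw [hm, zero_smul, add_zero] at h
      exact hl (two i k hik l n h)
    by_cases hn : n = 0
    · rw [hn, zero_smul, add_zero] at h
      exact hl (two i j hij l m h)
    have hr := rel hQ _ _ _ l m n h
    have hk := hKey E σ hQ.inv (a i) (a j) (a k) (hka0 _) (hka0 _) (hka0 _) (algebraMap F E l)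
      (algebraMap F E m) (algebraMap F E n) (by rwa [Ne, map_eq_zero]) (by rwa [Ne, map_eq_zero])
      (by rwa [Ne, map_eq_zero]) hr
    rcases hk with hk | hk | hk | hk | hk | hk | ⟨hk1, hk2⟩
    · exact hne i k hik hk
    · exact hne2 i k hk
    · exact hne j k hjk hk
    · exact hne2 j k hk
    · exact hne i j hij hk
    · exact hne2 i j hk
    · have hv1 : j.1 = i.1 := hvert i j hk1
      have hv2 : k.1 = i.1 := hvert i k hk2
      have g12 : (i.2 : E) ≠ j.2 := fun h1 => hij (Prod.ext hv1.symm (Subtype.ext h1))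
      have g13 : (i.2 : E) ≠ k.2 := fun h1 => hik (Prod.ext hv2.symm (Subtype.ext h1))
      have g23 : (j.2 : E) ≠ k.2 := fun h1 =>
        hjk (Prod.ext (hv1.trans hv2.symm) (Subtype.ext h1))
      have := same hPlane hQ hΓ (L' i.1) (hL0 _) i.2 j.2 k.2 i.2.2 j.2.2 k.2.2 g12 g13 g23 l m n
        (by
          have h2 : a j = L' i.1 + (j.2 : E) • cj σ (L' i.1) := by
            rw [show a j = L' j.1 + (j.2 : E) • cj σ (L' j.1) from rfl, hv1]
          have h3 : a k = L' i.1 + (k.2 : E) • cj σ (L' i.1) := by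
            rw [show a k = L' k.1 + (k.2 : E) • cj σ (L' k.1) from rfl, hv2]
          rw [h2, h3] at h
          exact h)
      exact hl this.1
  -- the number of indices
  have hfin : Finite (Projectivization F (Fin 3 → F)) := by
    unfold Projectivization
    infer_instance
  haveI : Fintype (Projectivization F (Fin 3 → F)) := Fintype.ofFinite _
  have hcard : Fintype.card ι = Γ.card * (Fintype.card F ^ 2 + Fintype.card F + 1) := by
    have h1 : Nat.card (Projectivization F (Fin 3 → F)) =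
        Fintype.card F ^ 2 + Fintype.card F + 1 := by
      rw [Projectivization.card_of_finrank F (Fin 3 → F) (n := 3) (by simp)]
      simp only [Finset.sum_range_succ, Finset.sum_range_zero, Nat.card_eq_fintype_card]
      ring
    rw [show Fintype.card ι = Fintype.card (Projectivization F (Fin 3 → F) × Γ) from rfl,
      Fintype.card_prod, Fintype.card_coe, ← Nat.card_eq_fintype_card, h1, mul_comm]
  obtain ⟨eqv⟩ : Nonempty (Fin (Γ.card * (Fintype.card F ^ 2 + Fintype.card F + 1)) ≃ ι) := by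
    rw [← hcard]
    exact ⟨(Fintype.equivFin ι).symm⟩
  refine ⟨fun i => W σ N T (a (eqv i)), fun i j k hij hik hjk => ?_⟩
  rw [Fintype.linearIndependent_iff]
  intro g hg
  rw [Fin.sum_univ_three] at hg
  simp only [Matrix.cons_val_zero, Matrix.cons_val_one, Matrix.cons_val_two, Matrix.tail_cons,
    Matrix.head_cons, Matrix.cons_val] at hg
  have hij' : eqv i ≠ eqv j := fun h => hij (eqv.injective h)
  have hik' : eqv i ≠ eqv k := fun h => hik (eqv.injective h)
  have hjk' : eqv j ≠ eqv k := fun h => hjk (eqv.injective h)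
  have e0 : g 0 = 0 := three _ _ _ hij' hik' hjk' _ _ _ hg
  have e1 : g 1 = 0 := three _ _ _ hij'.symm hjk' hik' (g 1) (g 0) (g 2) (by
    rw [← hg]
    abel)
  have e2 : g 2 = 0 := three _ _ _ hik'.symm hjk'.symm hij' (g 2) (g 0) (g 1) (by
    rw [← hg]
    abel)
  intro t
  fin_cases t
  · exact e0
  · exact e1
  · exact e2

end Pool.Agent.CapFive
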