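import Pool.Agent.CapFive.Spec

/-!
# From families of vectors to caps
-/

noncomputable section

namespace Pool.Agent.CapFive

open Finset Pool.Agent.Caps
open scoped Classical

private theorem cv_third {N : ℕ} (hN : 3 ≤ N) (i j : Fin N) : ∃ k : Fin N, i ≠ k ∧ j ≠ k := by
  have hc : ((Finset.univ : Finset (Fin N)) \ {i, j}).Nonempty := by
    rw [← Finset.card_pos]
    have h1 := Finset.le_card_sdiff ({i, j} : Finset (Fin N)) Finset.univ
    have h2 : ({i, j} : Finset (Fin N)).card ≤ 2 := Finset.card_le_two
    rw [Finset.card_univ, Fintype.card_fin] at h1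
    omega
  obtain ⟨k, hk⟩ := hc
  simp only [Finset.mem_sdiff, Finset.mem_univ, true_and, Finset.mem_insert,
    Finset.mem_singleton, not_or] at hk
  exact ⟨k, fun h => hk.1 h.symm, fun h => hk.2 h.symm⟩

/-- **From families to caps.** -/
theorem tConv : S_Conv := by
  intro F _ _ d N hN hfam
  obtain ⟨p, hp⟩ := hfam
  have hne : ∀ i, p i ≠ 0 := by
    intro i
    obtain ⟨j, hij, -⟩ := cv_third hN i i
    obtain ⟨k, hik, hjk⟩ := cv_third hN i j
    have h := (hp i j k hij hik hjk).ne_zero 0
    simpa using h
  have hinj : Function.Injective fun i => Projectivization.mk F (p i) (hne i) := by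
    intro i j h
    by_contra hij
    obtain ⟨k, hik, hjk⟩ := cv_third hN i j
    have hli := hp i j k hij hik hjk
    simp only at h
    rw [Projectivization.mk_eq_mk_iff'] at h
    obtain ⟨a, ha⟩ := h
    rw [Fintype.linearIndependent_iff] at hli
    have h1 := hli ![1, -a, 0] (by
      simp [Fin.sum_univ_three, ha]) 0
    simp at h1
  have hfin : Finite (Projectivization F (Fin (d + 1) → F)) := inferInstance
  set K : Finset (Projectivization F (Fin (d + 1) → F)) :=
    Finset.univ.image fun i => Projectivization.mk F (p i) (hne i) with hK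
  have hcard : K.card = N := by
    rw [hK, Finset.card_image_of_injective _ hinj, Finset.card_univ, Fintype.card_fin]
  have hcap : IsCap F d K := by
    intro W hW
    by_contra hcon
    push Not at hcon
    have hf : {P : Projectivization F (Fin (d + 1) → F) | P ∈ K ∧ P.submodule ≤ W}.Finite :=
      K.finite_toSet.subset (fun P hP => hP.1)
    rw [Set.two_lt_ncard_iff hf] at hcon
    obtain ⟨P, Q, R, ⟨hP, hPW⟩, ⟨hQ, hQW⟩, ⟨hR, hRW⟩, hPQ, hPR, hQR⟩ := hcon
    rw [hK, Finset.mem_image] at hP hQ hR
    obtain ⟨i, -, rfl⟩ := hP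
    obtain ⟨j, -, rfl⟩ := hQ
    obtain ⟨k, -, rfl⟩ := hR
    rw [Projectivization.submodule_mk, Submodule.span_singleton_le_iff_mem] at hPW hQW hRW
    have hij : i ≠ j := fun h => hPQ (by subst h; rfl)
    have hik : i ≠ k := fun h => hPR (by subst h; rfl)
    have hjk : j ≠ k := fun h => hQR (by subst h; rfl)
    have hli := hp i j k hij hik hjk
    have hmem : ∀ t : Fin 3, ![p i, p j, p k] t ∈ W := by
      intro t
      fin_cases t
      · exact hPW
      · exact hQW
      · exact hRW
    have hspan : Submodule.span F (Set.range ![p i, p j, p k]) ≤ W := by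
      rw [Submodule.span_le]
      rintro x ⟨t, rfl⟩
      exact hmem t
    have h3 := finrank_span_eq_card hli
    have h4 := Submodule.finrank_mono hspan
    rw [h3, hW, Fintype.card_fin] at h4
    omega
  refine ⟨⟨K, hcap, hcard⟩, ?_⟩
  refine le_csSup ?_ ⟨K, hcap, hcard⟩
  have hft : Fintype (Projectivization F (Fin (d + 1) → F)) := Fintype.ofFinite _
  refine ⟨Fintype.card (Projectivization F (Fin (d + 1) → F)), ?_⟩
  rintro m ⟨K', -, rfl⟩
  exact Finset.card_le_univ _

end Pool.Agent.CapFive
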