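import Mathlib
import Pool.Agent.CapFive.Spec

/-!
# The quadratic extension of a finite field
-/

noncomputable section

namespace Pool.Agent.CapFive

open Finset Pool.Agent.Caps
open scoped Classical

private theorem ext_norm (F E : Type) [Field F] [Field E] [Fintype F] [Fintype E] [Algebra F E]
    (hrank : Module.finrank F E = 2) (x : E) :
    algebraMap F E (Algebra.norm F x) = x * x ^ Fintype.card F := by
  rw [FiniteField.algebraMap_norm_eq_pow_sum, hrank, Finset.sum_range_succ, Finset.sum_range_one,
    pow_zero, pow_one, pow_add, pow_one, Nat.card_eq_fintype_card]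

private theorem ext_trace (F E : Type) [Field F] [Field E] [Fintype F] [Fintype E] [Algebra F E]
    (hrank : Module.finrank F E = 2) (x : E) :
    algebraMap F E (Algebra.trace F E x) = x + x ^ Fintype.card F := by
  rw [FiniteField.algebraMap_trace_eq_sum_pow, hrank, Finset.sum_range_succ, Finset.sum_range_one,
    pow_zero, pow_one, pow_one, Nat.card_eq_fintype_card]

private theorem ext_norm_zero (F E : Type) [Field F] [Field E] [Fintype F] [Fintype E]
    [Algebra F E] (hrank : Module.finrank F E = 2) (x : E) :
    Algebra.norm F x = 0 ↔ x = 0 := by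
  constructor
  · intro h
    have h1 := ext_norm F E hrank x
    rw [h, map_zero] at h1
    rcases mul_eq_zero.mp h1.symm with h2 | h2
    · exact h2
    · exact pow_eq_zero_iff (Fintype.card_ne_zero) |>.mp h2
  · intro h
    have h1 := ext_norm F E hrank x
    rw [h, zero_mul] at h1
    rw [h]
    exact (map_eq_zero _).mp h1

private theorem ext_fiber (F E : Type) [Field F] [Field E] [Fintype F] [Fintype E]
    [Algebra F E] (hrank : Module.finrank F E = 2) (r : F) (hr : r ≠ 0) :
    ((univ : Finset E).filter fun x => Algebra.norm F x = r).card =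
      ((univ : Finset E).filter fun x => Algebra.norm F x = 1).card := by
  obtain ⟨x0, hx0⟩ := FiniteField.norm_surjective F E r
  have hx00 : x0 ≠ 0 := by
    intro h
    rw [h] at hx0
    apply hr
    rw [← hx0]
    exact (ext_norm_zero F E hrank 0).mpr rfl
  symm
  apply Finset.card_bij (fun x _ => x0 * x)
  · intro a ha
    rw [Finset.mem_filter] at ha ⊢
    refine ⟨mem_univ _, ?_⟩
    rw [map_mul, hx0, ha.2, mul_one]
  · intro a _ b _ h
    exact mul_left_cancel₀ hx00 h
  · intro b hb
    rw [Finset.mem_filter] at hb
    refine ⟨x0⁻¹ * b, ?_, ?_⟩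
    · rw [Finset.mem_filter]
      refine ⟨mem_univ _, ?_⟩
      have h1 : Algebra.norm F (x0 * (x0⁻¹ * b)) = r := by
        rw [mul_inv_cancel_left₀ hx00]; exact hb.2
      rw [map_mul, hx0] at h1
      exact mul_left_cancel₀ hr (by rw [h1, mul_one])
    · exact mul_inv_cancel_left₀ hx00 b

private theorem ext_count (F E : Type) [Field F] [Field E] [Fintype F] [Fintype E]
    [Algebra F E] (hrank : Module.finrank F E = 2) (r : F) (hr : r ≠ 0) :
    ((univ : Finset E).filter fun x => Algebra.norm F x = r).card = Fintype.card F + 1 := by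
  rw [ext_fiber F E hrank r hr]
  have hsum : Fintype.card E =
      ∑ r : F, ((univ : Finset E).filter fun x => Algebra.norm F x = r).card := by
    have := Finset.card_eq_sum_card_fiberwise (s := (univ : Finset E)) (t := (univ : Finset F))
      (f := fun x => Algebra.norm F x) (fun x _ => by simp)
    simpa using this
  have hcE : Fintype.card E = Fintype.card F ^ 2 := by
    rw [Module.card_eq_pow_finrank (K := F) (V := E), hrank]
  rw [← Finset.add_sum_erase univ _ (mem_univ (0 : F))] at hsum
  have h0 : ((univ : Finset E).filter fun x => Algebra.norm F x = (0 : F)).card = 1 := by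
    rw [Finset.card_eq_one]
    refine ⟨0, ?_⟩
    ext x
    rw [Finset.mem_filter, Finset.mem_singleton]
    constructor
    · intro h; exact (ext_norm_zero F E hrank x).mp h.2
    · intro h; exact ⟨mem_univ _, (ext_norm_zero F E hrank x).mpr h⟩
  have h1 : ∑ r ∈ (univ : Finset F).erase 0,
      ((univ : Finset E).filter fun x => Algebra.norm F x = r).card =
      (Fintype.card F - 1) * ((univ : Finset E).filter fun x => Algebra.norm F x = 1).card := by
    rw [Finset.sum_congr rfl (fun r hr => ext_fiber F E hrank r (Finset.ne_of_mem_erase hr)),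
      Finset.sum_const, Finset.card_erase_of_mem (mem_univ _), Finset.card_univ, smul_eq_mul]
  rw [h0, h1, hcE] at hsum
  have hq : 1 < Fintype.card F := Fintype.one_lt_card
  obtain ⟨m, hm⟩ := Nat.exists_eq_add_of_lt hq
  have e1 : Fintype.card F - 1 = m + 1 := by omega
  rw [e1] at hsum
  have e2 : Fintype.card F = m + 2 := by omega
  rw [e2] at hsum ⊢
  set c := ((univ : Finset E).filter fun x => Algebra.norm F x = 1).card
  have h3 : (m + 1) * c = (m + 1) * (m + 2 + 1) := by nlinarith
  exact Nat.eq_of_mul_eq_mul_left (Nat.succ_pos m) h3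

private theorem ext_th (F E : Type) [Field F] [Field E] [Fintype F] [Fintype E]
    [Algebra F E] (hrank : Module.finrank F E = 2) :
    ∃ θ : E, θ ^ Fintype.card F ≠ θ := by
  by_contra hcon
  push Not at hcon
  have hcE : Fintype.card E = Fintype.card F ^ 2 := by
    rw [Module.card_eq_pow_finrank (K := F) (V := E), hrank]
  have hq : 1 < Fintype.card F := Fintype.one_lt_card
  have hne : (Polynomial.X ^ Fintype.card F - Polynomial.X : Polynomial E) ≠ 0 :=
    FiniteField.X_pow_card_sub_X_ne_zero E hq
  have h1 : (univ : Finset E) ⊆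
      (Polynomial.X ^ Fintype.card F - Polynomial.X : Polynomial E).roots.toFinset := by
    intro x _
    rw [Multiset.mem_toFinset, Polynomial.mem_roots hne, Polynomial.IsRoot.def]
    simp [hcon x]
  have h2 := Finset.card_le_card h1
  have h3 := Multiset.toFinset_card_le
    (Polynomial.X ^ Fintype.card F - Polynomial.X : Polynomial E).roots
  have h4 := Polynomial.card_roots'
    (Polynomial.X ^ Fintype.card F - Polynomial.X : Polynomial E)
  rw [FiniteField.X_pow_card_sub_X_natDegree_eq E hq] at h4
  rw [Finset.card_univ, hcE] at h2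
  nlinarith

private theorem ext_qe (F E : Type) [Field F] [Field E] [Fintype F] [Fintype E]
    [Algebra F E] (hrank : Module.finrank F E = 2) :
    QE F E ((FiniteField.frobeniusAlgHom F E : E →ₐ[F] E) : E →+* E)
      (fun x => Algebra.norm F x) (fun x => Algebra.trace F E x) := by
  have hcE : Fintype.card E = Fintype.card F ^ 2 := by
    rw [Module.card_eq_pow_finrank (K := F) (V := E), hrank]
  have hσ : ∀ x : E, ((FiniteField.frobeniusAlgHom F E : E →ₐ[F] E) : E →+* E) x =
      x ^ Fintype.card F := fun x => rfl
  constructor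
  · intro x
    rw [hσ, hσ, ← pow_mul, ← sq, ← hcE]
    exact FiniteField.pow_card x
  · intro y
    rw [hσ, ← map_pow, FiniteField.pow_card]
  · intro x
    rw [hσ]
    exact ext_norm F E hrank x
  · intro x
    rw [hσ]
    exact ext_trace F E hrank x
  · intro r hr
    exact ext_count F E hrank r hr
  · obtain ⟨θ, hθ⟩ := ext_th F E hrank
    exact ⟨θ, by rw [hσ]; exact hθ⟩

theorem tExt : S_Ext := by
  intro F _ _
  obtain ⟨p, hp⟩ := CharP.exists F
  haveI : Fact p.Prime := ⟨CharP.char_is_prime F p⟩
  haveI : Fintype (FiniteField.Extension F p 2) := Fintype.ofFinite _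
  have hrank : Module.finrank F (FiniteField.Extension F p 2) = 2 :=
    FiniteField.finrank_extension F p 2
  exact ⟨FiniteField.Extension F p 2, inferInstance, inferInstance, inferInstance, _, _, _,
    ext_qe F (FiniteField.Extension F p 2) hrank⟩

end Pool.Agent.CapFive
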