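import Mathlib
import Pool.Agent.CapFive.Spec

/-!
# Three collinear imaginary line pairs have the same vertex
-/

noncomputable section

namespace Pool.Agent.CapFive

open Finset Pool.Agent.Caps
open scoped Classical

variable {E : Type} [Field E]

private theorem cr_0 (a b : Fin 3 → E) : cr a b 0 = a 1 * b 2 - a 2 * b 1 := rfl

private theorem cr_1 (a b : Fin 3 → E) : cr a b 1 = a 2 * b 0 - a 0 * b 2 := rfl

private theorem cr_2 (a b : Fin 3 → E) : cr a b 2 = a 0 * b 1 - a 1 * b 0 := rfl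

private theorem ext3 {a b : Fin 3 → E} (h0 : a 0 = b 0) (h1 : a 1 = b 1) (h2 : a 2 = b 2) :
    a = b := by
  funext i
  fin_cases i
  · exact h0
  · exact h1
  · exact h2

private theorem dt_l (a b : Fin 3 → E) : dt a (cr a b) = 0 := by
  simp only [dt, cr_0, cr_1, cr_2]; ring

private theorem dt_r (a b : Fin 3 → E) : dt b (cr a b) = 0 := by
  simp only [dt, cr_0, cr_1, cr_2]; ring

/-- F1 -/
private theorem f1 {a c : Fin 3 → E} (ha : a ≠ 0) (h : cr a c = 0) : ∃ e : E, c = e • a := by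
  have h0 : a 1 * c 2 - a 2 * c 1 = 0 := by rw [← cr_0, h]; rfl
  have h1 : a 2 * c 0 - a 0 * c 2 = 0 := by rw [← cr_1, h]; rfl
  have h2 : a 0 * c 1 - a 1 * c 0 = 0 := by rw [← cr_2, h]; rfl
  by_cases k0 : a 0 = 0
  · by_cases k1 : a 1 = 0
    · by_cases k2 : a 2 = 0
      · exact absurd (ext3 k0 k1 k2) ha
      · refine ⟨c 2 / a 2, ext3 ?_ ?_ ?_⟩ <;>
          rw [Pi.smul_apply, smul_eq_mul, div_mul_eq_mul_div, eq_div_iff k2]
        · linear_combination h1
        · linear_combination -h0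
    · refine ⟨c 1 / a 1, ext3 ?_ ?_ ?_⟩ <;>
        rw [Pi.smul_apply, smul_eq_mul, div_mul_eq_mul_div, eq_div_iff k1]
      · linear_combination -h2
      · linear_combination h0
  · refine ⟨c 0 / a 0, ext3 ?_ ?_ ?_⟩ <;>
      rw [Pi.smul_apply, smul_eq_mul, div_mul_eq_mul_div, eq_div_iff k0]
    · linear_combination h2
    · linear_combination -h1

/-- F2 -/
private theorem f2 {a b w : Fin 3 → E} (h : cr a b ≠ 0) (ha : dt a w = 0) (hb : dt b w = 0) :
    ∃ e : E, w = e • cr a b := by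
  apply f1 h
  simp only [dt] at ha hb
  apply ext3
  · simp only [cr_0, cr_1, cr_2, Pi.zero_apply]
    linear_combination (b 0) * ha - (a 0) * hb
  · simp only [cr_0, cr_1, cr_2, Pi.zero_apply]
    linear_combination (b 1) * ha - (a 1) * hb
  · simp only [cr_0, cr_1, cr_2, Pi.zero_apply]
    linear_combination (b 2) * ha - (a 2) * hb

private theorem cj_cj {σ : E →+* E} (hσ : ∀ x, σ (σ x) = x) (a : Fin 3 → E) :
    cj σ (cj σ a) = a := by
  funext i; exact hσ (a i)

private theorem cj_cr (σ : E →+* E) (a b : Fin 3 → E) :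
    cj σ (cr a b) = cr (cj σ a) (cj σ b) := by
  apply ext3
  · show σ (cr a b 0) = _
    simp only [cr_0, map_sub, map_mul, cj]
  · show σ (cr a b 1) = _
    simp only [cr_1, map_sub, map_mul, cj]
  · show σ (cr a b 2) = _
    simp only [cr_2, map_sub, map_mul, cj]

private theorem map_dt (σ : E →+* E) (a b : Fin 3 → E) :
    σ (dt a b) = dt (cj σ a) (cj σ b) := by
  simp only [dt, cj, map_add, map_mul]

private theorem cr_swap (a b : Fin 3 → E) : cr b a = - cr a b := by
  apply ext3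
  · simp only [cr_0, Pi.neg_apply]; ring
  · simp only [cr_1, Pi.neg_apply]; ring
  · simp only [cr_2, Pi.neg_apply]; ring

private theorem dt_neg (a b : Fin 3 → E) : dt a (-b) = - dt a b := by
  simp only [dt, Pi.neg_apply]; ring

private theorem dt_smul (e : E) (a b : Fin 3 → E) : dt a (e • b) = e * dt a b := by
  simp only [dt, Pi.smul_apply, smul_eq_mul]; ring

private theorem cj_ka {σ : E →+* E} (hσ : ∀ x, σ (σ x) = x) (a : Fin 3 → E) :
    cj σ (ka σ a) = - ka σ a := by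
  rw [ka, cj_cr, cj_cj hσ, cr_swap]

private theorem ka_cj {σ : E →+* E} (hσ : ∀ x, σ (σ x) = x) (a : Fin 3 → E) :
    ka σ (cj σ a) = - ka σ a := by
  rw [ka, cj_cj hσ, cr_swap, ka]

/-- orthogonality to the vertex is invariant under conjugation -/
private theorem orth {σ : E →+* E} (hσ : ∀ x, σ (σ x) = x) {a b : Fin 3 → E}
    (h : dt a (ka σ b) = 0) : dt (cj σ a) (ka σ b) = 0 := by
  have h1 := map_dt σ a (ka σ b)
  rw [h, map_zero, cj_ka hσ, dt_neg] at h1
  exact neg_eq_zero.mp h1.symm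

private theorem left_ne {σ : E →+* E} {a : Fin 3 → E} (h : ka σ a ≠ 0) : a ≠ 0 := by
  intro h0
  apply h
  rw [h0]
  apply ext3
  · rw [ka, cr_0]; simp
  · rw [ka, cr_1]; simp
  · rw [ka, cr_2]; simp

/-- if `ka a` is orthogonal to `c`, then the two vertices are proportional -/
private theorem prop {σ : E →+* E} (hσ : ∀ x, σ (σ x) = x) {a c : Fin 3 → E}
    (ha : ka σ a ≠ 0) (hc : ka σ c ≠ 0) (h : dt c (ka σ a) = 0) :
    ∃ e : E, e ≠ 0 ∧ ka σ c = e • ka σ a := by
  obtain ⟨e, he⟩ := f2 (a := c) (b := cj σ c) hc h (orth hσ h)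
  have he0 : e ≠ 0 := by
    intro h0
    rw [h0, zero_smul] at he
    exact ha he
  refine ⟨e⁻¹, inv_ne_zero he0, ?_⟩
  rw [he, smul_smul, inv_mul_cancel₀ he0, one_smul]
  rfl

/-- the vertex of `b` from a vector `w` which is orthogonal to `b` and `cj b` -/
private theorem vert {σ : E →+* E} {b w : Fin 3 → E} (hb : ka σ b ≠ 0) (hw : w ≠ 0)
    (h1 : dt b w = 0) (h2 : dt (cj σ b) w = 0) : ∃ e : E, ka σ b = e • w := by
  obtain ⟨e, he⟩ := f2 (a := b) (b := cj σ b) hb h1 h2
  have he0 : e ≠ 0 := by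
    intro h0
    rw [h0, zero_smul] at he
    exact hw he
  refine ⟨e⁻¹, ?_⟩
  rw [he, smul_smul, inv_mul_cancel₀ he0, one_smul]
  rfl

private theorem key_aux {σ : E →+* E} (hσ : ∀ x, σ (σ x) = x) {a b c : Fin 3 → E}
    (ha : ka σ a ≠ 0) (hb : ka σ b ≠ 0) (hc : ka σ c ≠ 0)
    (hca : ¬ ∃ e : E, c = e • a) (hcb : ¬ ∃ e : E, c = e • b)
    (h1 : dt c (cr a b) = 0)
    (h2 : dt c (cr a (cj σ b)) * dt (cj σ c) (cr a (cj σ b)) = 0) :
    (∃ e : E, ka σ b = e • ka σ a) ∧ ∃ e : E, ka σ c = e • ka σ a := by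
  rcases mul_eq_zero.mp h2 with h3 | h3
  · -- case 1
    have hw : cr a c ≠ 0 := fun h => hca (f1 (left_ne ha) h)
    have o1 : dt b (cr a c) = 0 := by
      simp only [dt, cr_0, cr_1, cr_2] at h1 ⊢
      linear_combination -h1
    have o2 : dt (cj σ b) (cr a c) = 0 := by
      simp only [dt, cr_0, cr_1, cr_2] at h3 ⊢
      linear_combination -h3
    obtain ⟨e, he⟩ := vert hb hw o1 o2
    have p1 : dt a (ka σ b) = 0 := by rw [he, dt_smul, dt_l, mul_zero]
    have p2 : dt c (ka σ b) = 0 := by rw [he, dt_smul, dt_r, mul_zero]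
    obtain ⟨e1, k1, he1⟩ := prop hσ hb ha p1
    obtain ⟨e2, k2, he2⟩ := prop hσ hb hc p2
    have q1 : ka σ b = e1⁻¹ • ka σ a := by
      rw [he1, smul_smul, inv_mul_cancel₀ k1, one_smul]
    refine ⟨⟨e1⁻¹, q1⟩, e2 * e1⁻¹, ?_⟩
    rw [he2, q1, smul_smul]
  · -- case 2
    have h4 : dt c (cr (cj σ a) b) = 0 := by
      have h5 := map_dt σ (cj σ c) (cr a (cj σ b))
      rw [h3, map_zero, cj_cj hσ, cj_cr, cj_cj hσ] at h5
      exact h5.symm
    have hw : cr b c ≠ 0 := fun h => hcb (f1 (left_ne hb) h)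
    have o1 : dt a (cr b c) = 0 := by
      simp only [dt, cr_0, cr_1, cr_2] at h1 ⊢
      linear_combination h1
    have o2 : dt (cj σ a) (cr b c) = 0 := by
      simp only [dt, cr_0, cr_1, cr_2] at h4 ⊢
      linear_combination h4
    obtain ⟨e, he⟩ := vert ha hw o1 o2
    have p1 : dt b (ka σ a) = 0 := by rw [he, dt_smul, dt_l, mul_zero]
    have p2 : dt c (ka σ a) = 0 := by rw [he, dt_smul, dt_r, mul_zero]
    obtain ⟨e1, _, he1⟩ := prop hσ ha hb p1
    obtain ⟨e2, _, he2⟩ := prop hσ ha hc p2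
    exact ⟨⟨e1, he1⟩, e2, he2⟩

theorem tKey : S_Key := by
  intro E _ σ hσ a b c ha hb hc l m n _ _ hn hrel
  by_cases c1 : ∃ e : E, c = e • a
  · exact Or.inl c1
  by_cases c2 : ∃ e : E, c = e • cj σ a
  · exact Or.inr (Or.inl c2)
  by_cases c3 : ∃ e : E, c = e • b
  · exact Or.inr (Or.inr (Or.inl c3))
  by_cases c4 : ∃ e : E, c = e • cj σ b
  · exact Or.inr (Or.inr (Or.inr (Or.inl c4)))
  right; right; right; right; right; right
  -- first special vector
  have r1 : dt c (cr a b) * dt (cj σ c) (cr a b) = 0 := by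
    have h := hrel (cr a b)
    simp only [qf] at h
    rw [dt_l, dt_r] at h
    have h' : n * (dt c (cr a b) * dt (cj σ c) (cr a b)) = 0 := by linear_combination h
    exact (mul_eq_zero.mp h').resolve_left hn
  have r2 : dt c (cr a (cj σ b)) * dt (cj σ c) (cr a (cj σ b)) = 0 := by
    have h := hrel (cr a (cj σ b))
    simp only [qf] at h
    rw [dt_l, dt_r] at h
    have h' : n * (dt c (cr a (cj σ b)) * dt (cj σ c) (cr a (cj σ b))) = 0 := by
      linear_combination h
    exact (mul_eq_zero.mp h').resolve_left hn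
  rcases mul_eq_zero.mp r1 with h1 | h1
  · exact key_aux hσ ha hb hc c1 c3 h1 r2
  · have hc' : ka σ (cj σ c) ≠ 0 := by
      rw [ka_cj hσ]; exact neg_ne_zero.mpr hc
    have c1' : ¬ ∃ e : E, cj σ c = e • a := by
      rintro ⟨e, he⟩
      apply c2
      refine ⟨σ e, ?_⟩
      have h := congrArg (cj σ) he
      rw [cj_cj hσ] at h
      rw [h]
      funext i
      simp [cj]
    have c3' : ¬ ∃ e : E, cj σ c = e • b := by
      rintro ⟨e, he⟩
      apply c4
      refine ⟨σ e, ?_⟩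
      have h := congrArg (cj σ) he
      rw [cj_cj hσ] at h
      rw [h]
      funext i
      simp [cj]
    have r3 : dt (cj σ c) (cr a (cj σ b)) * dt (cj σ (cj σ c)) (cr a (cj σ b)) = 0 := by
      rw [cj_cj hσ, mul_comm]; exact r2
    obtain ⟨k1, e, he⟩ := key_aux hσ ha hb hc' c1' c3' h1 r3
    refine ⟨k1, -e, ?_⟩
    rw [ka_cj hσ] at he
    rw [neg_smul, ← he, neg_neg]

end Pool.Agent.CapFive
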