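import Pool.Agent.CapFive.Spec

/-!
# Proportional forms and forms with the same vertex
-/

noncomputable section

namespace Pool.Agent.CapFive

open Finset Pool.Agent.Caps
open scoped Classical

section

variable {E : Type} [Field E]

private theorem pp_F1 {a c : Fin 3 → E} (ha : a ≠ 0) (h : cr a c = 0) : ∃ e : E, c = e • a := by
  have h0 : a 1 * c 2 - a 2 * c 1 = 0 := congrFun h 0
  have h1 : a 2 * c 0 - a 0 * c 2 = 0 := congrFun h 1
  have h2 : a 0 * c 1 - a 1 * c 0 = 0 := congrFun h 2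
  obtain ⟨i, hi⟩ := Function.ne_iff.1 ha
  simp only [Pi.zero_apply] at hi
  refine ⟨c i / a i, ?_⟩
  funext j
  rw [Pi.smul_apply, smul_eq_mul, div_mul_eq_mul_div, eq_div_iff hi]
  fin_cases i <;> fin_cases j <;> simp only [Fin.zero_eta, Fin.mk_one, Fin.reduceFinMk]
  · linear_combination h2
  · linear_combination -h1
  · linear_combination -h2
  · linear_combination h0
  · linear_combination h1
  · linear_combination -h0

private theorem pp_F2 {a a' w : Fin 3 → E} (h : cr a a' ≠ 0) (h1 : dt a w = 0) (h2 : dt a' w = 0) :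
    ∃ e : E, w = e • cr a a' := by
  refine pp_F1 h ?_
  unfold dt at h1 h2
  funext j
  fin_cases j
  · show (cr a a') 1 * w 2 - (cr a a') 2 * w 1 = 0
    show (a 2 * a' 0 - a 0 * a' 2) * w 2 - (a 0 * a' 1 - a 1 * a' 0) * w 1 = 0
    linear_combination a' 0 * h1 - a 0 * h2
  · show (a 0 * a' 1 - a 1 * a' 0) * w 0 - (a 1 * a' 2 - a 2 * a' 1) * w 2 = 0
    linear_combination a' 1 * h1 - a 1 * h2
  · show (a 1 * a' 2 - a 2 * a' 1) * w 1 - (a 2 * a' 0 - a 0 * a' 2) * w 0 = 0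
    linear_combination a' 2 * h1 - a 2 * h2

private theorem pp_sig {σ : E →+* E} (hσ : ∀ x, σ (σ x) = x) (a b : Fin 3 → E) :
    σ (dt b (ka σ a)) = -dt (cj σ b) (ka σ a) := by
  show σ (b 0 * (a 1 * σ (a 2) - a 2 * σ (a 1)) + b 1 * (a 2 * σ (a 0) - a 0 * σ (a 2)) +
    b 2 * (a 0 * σ (a 1) - a 1 * σ (a 0))) =
    -(σ (b 0) * (a 1 * σ (a 2) - a 2 * σ (a 1)) + σ (b 1) * (a 2 * σ (a 0) - a 0 * σ (a 2)) +
    σ (b 2) * (a 0 * σ (a 1) - a 1 * σ (a 0)))
  simp only [map_add, map_mul, map_sub, hσ]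
  ring

private theorem pp_qf {σ : E →+* E} (hσ : ∀ x, σ (σ x) = x) (L x : Fin 3 → E) (g : E) :
    qf σ (L + g • cj σ L) x =
      (dt L x + g * dt (cj σ L) x) * (dt (cj σ L) x + σ g * dt L x) := by
  show ((L 0 + g * σ (L 0)) * x 0 + (L 1 + g * σ (L 1)) * x 1 + (L 2 + g * σ (L 2)) * x 2) *
    (σ (L 0 + g * σ (L 0)) * x 0 + σ (L 1 + g * σ (L 1)) * x 1 + σ (L 2 + g * σ (L 2)) * x 2) =
    ((L 0 * x 0 + L 1 * x 1 + L 2 * x 2) + g * (σ (L 0) * x 0 + σ (L 1) * x 1 + σ (L 2) * x 2)) *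
    ((σ (L 0) * x 0 + σ (L 1) * x 1 + σ (L 2) * x 2) + σ g * (L 0 * x 0 + L 1 * x 1 + L 2 * x 2))
  simp only [map_add, map_mul, hσ]
  ring

private theorem pp_dt_add (a x y : Fin 3 → E) : dt a (x + y) = dt a x + dt a y := by
  show a 0 * (x 0 + y 0) + a 1 * (x 1 + y 1) + a 2 * (x 2 + y 2) =
    (a 0 * x 0 + a 1 * x 1 + a 2 * x 2) + (a 0 * y 0 + a 1 * y 1 + a 2 * y 2)
  ring

private theorem pp_triple (a b y : Fin 3 → E) : dt a (cr b y) = dt (cr a b) y := by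
  show a 0 * (b 1 * y 2 - b 2 * y 1) + a 1 * (b 2 * y 0 - b 0 * y 2) +
    a 2 * (b 0 * y 1 - b 1 * y 0) =
    (a 1 * b 2 - a 2 * b 1) * y 0 + (a 2 * b 0 - a 0 * b 2) * y 1 + (a 0 * b 1 - a 1 * b 0) * y 2
  ring

private theorem pp_self (a y : Fin 3 → E) : dt (cr a a) y = 0 := by
  show (a 1 * a 2 - a 2 * a 1) * y 0 + (a 2 * a 0 - a 0 * a 2) * y 1 +
    (a 0 * a 1 - a 1 * a 0) * y 2 = 0
  ring

private theorem pp_anti (a b y : Fin 3 → E) : dt (cr a b) y = -dt (cr b a) y := by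
  show (a 1 * b 2 - a 2 * b 1) * y 0 + (a 2 * b 0 - a 0 * b 2) * y 1 +
    (a 0 * b 1 - a 1 * b 0) * y 2 = -((b 1 * a 2 - b 2 * a 1) * y 0 +
    (b 2 * a 0 - b 0 * a 2) * y 1 + (b 0 * a 1 - b 1 * a 0) * y 2)
  ring

private theorem pp_unit {w : Fin 3 → E} (hw : w ≠ 0) : ∃ y : Fin 3 → E, dt w y ≠ 0 := by
  obtain ⟨i, hi⟩ := Function.ne_iff.1 hw
  refine ⟨Pi.single i 1, ?_⟩
  have h : dt w (Pi.single i 1) = w i := by
    unfold dt
    fin_cases i <;> simp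
  rw [h]
  exact hi

end

/-- **Proportional forms have the same vertex.** -/
theorem tPair : S_Pair := by
  intro E _ σ hσ a b ha hb l m hm h
  have h1 := h (ka σ a)
  have ha1 : dt a (ka σ a) = 0 := by
    show dt a (cr a (cj σ a)) = 0
    rw [pp_triple, pp_self]
  have ha2 : qf σ a (ka σ a) = 0 := by
    unfold qf
    rw [ha1, zero_mul]
  rw [ha2, mul_zero, zero_add] at h1
  have h2 : qf σ b (ka σ a) = 0 := (mul_eq_zero.1 h1).resolve_left hm
  have h3 := pp_sig hσ a b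
  have h4 : dt b (ka σ a) = 0 ∧ dt (cj σ b) (ka σ a) = 0 := by
    rcases mul_eq_zero.1 h2 with h5 | h5
    · rw [h5, map_zero] at h3
      exact ⟨h5, neg_eq_zero.1 h3.symm⟩
    · rw [h5, neg_zero] at h3
      refine ⟨?_, h5⟩
      rw [← hσ (dt b (ka σ a)), h3, map_zero]
  obtain ⟨e, he⟩ := pp_F2 (show cr b (cj σ b) ≠ 0 from hb) h4.1 h4.2
  have he0 : e ≠ 0 := by
    rintro rfl
    rw [zero_smul] at he
    exact ha he
  refine ⟨e⁻¹, ?_⟩
  rw [he, smul_smul, inv_mul_cancel₀ he0, one_smul]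
  rfl

/-- **Forms with the same vertex.** -/
theorem tPlane : S_Plane := by
  intro E _ σ hσ L hL
  constructor
  · intro g
    funext i
    fin_cases i
    · show (L 1 + g * σ (L 1)) * σ (L 2 + g * σ (L 2)) - (L 2 + g * σ (L 2)) *
        σ (L 1 + g * σ (L 1)) = (1 - g * σ g) * (L 1 * σ (L 2) - L 2 * σ (L 1))
      simp only [map_add, map_mul, hσ]
      ring
    · show (L 2 + g * σ (L 2)) * σ (L 0 + g * σ (L 0)) - (L 0 + g * σ (L 0)) *
        σ (L 2 + g * σ (L 2)) = (1 - g * σ g) * (L 2 * σ (L 0) - L 0 * σ (L 2))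
      simp only [map_add, map_mul, hσ]
      ring
    · show (L 0 + g * σ (L 0)) * σ (L 1 + g * σ (L 1)) - (L 1 + g * σ (L 1)) *
        σ (L 0 + g * σ (L 0)) = (1 - g * σ g) * (L 0 * σ (L 1) - L 1 * σ (L 0))
      simp only [map_add, map_mul, hσ]
      ring
  · intro g l h
    obtain ⟨y, hy⟩ := pp_unit hL
    simp only [Fin.sum_univ_three, pp_qf hσ] at h
    simp only [Fin.sum_univ_three]
    have hU1 : dt L (cr L y) = 0 := by rw [pp_triple, pp_self]
    have hV1 : dt (cj σ L) (cr L y) = -dt (ka σ L) y := by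
      rw [pp_triple, pp_anti]
      rfl
    have hU2 : dt L (cr (cj σ L) y) = dt (ka σ L) y := by
      rw [pp_triple]
      rfl
    have hV2 : dt (cj σ L) (cr (cj σ L) y) = 0 := by rw [pp_triple, pp_self]
    have h1 := h (cr L y)
    have h2 := h (cr (cj σ L) y)
    have h3 := h (cr L y + cr (cj σ L) y)
    rw [hU1, hV1] at h1
    rw [hU2, hV2] at h2
    rw [pp_dt_add, pp_dt_add, hU1, hV1, hU2, hV2] at h3
    have hk2 : dt (ka σ L) y * dt (ka σ L) y ≠ 0 := mul_ne_zero hy hy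
    have e1 : l 0 * g 0 + l 1 * g 1 + l 2 * g 2 = 0 := by
      refine (mul_eq_zero.1 (?_ : dt (ka σ L) y * dt (ka σ L) y *
        (l 0 * g 0 + l 1 * g 1 + l 2 * g 2) = 0)).resolve_left hk2
      linear_combination h1
    have e2 : l 0 * σ (g 0) + l 1 * σ (g 1) + l 2 * σ (g 2) = 0 := by
      refine (mul_eq_zero.1 (?_ : dt (ka σ L) y * dt (ka σ L) y *
        (l 0 * σ (g 0) + l 1 * σ (g 1) + l 2 * σ (g 2)) = 0)).resolve_left hk2
      linear_combination h2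
    refine ⟨e1, ?_⟩
    refine (mul_eq_zero.1 (?_ : dt (ka σ L) y * dt (ka σ L) y *
      (l 0 * (1 + g 0 * σ (g 0)) + l 1 * (1 + g 1 * σ (g 1)) +
        l 2 * (1 + g 2 * σ (g 2))) = 0)).resolve_left hk2
    linear_combination -h3 + dt (ka σ L) y * dt (ka σ L) y * e1 +
      dt (ka σ L) y * dt (ka σ L) y * e2

end Pool.Agent.CapFive
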