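import Pool.Agent.CapFive.Spec

/-!
# Product with an affine elliptic quadric (`S_Prod`)
-/

noncomputable section

namespace Pool.Agent.CapFive

open Finset Pool.Agent.Caps
open scoped Classical

section

variable {F : Type} [Field F]

private theorem li3 {V : Type} [AddCommGroup V] [Module F V] {a b c : V} :
    LinearIndependent F ![a, b, c] ↔
      ∀ x y z : F, x • a + y • b + z • c = 0 → x = 0 ∧ y = 0 ∧ z = 0 := by
  rw [Fintype.linearIndependent_iff]
  constructor
  · intro h x y z hxyz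
    have := h ![x, y, z] (by simpa [Fin.sum_univ_three] using hxyz)
    exact ⟨this 0, this 1, this 2⟩
  · intro h g hg i
    have := h (g 0) (g 1) (g 2) (by simpa [Fin.sum_univ_three] using hg)
    fin_cases i
    · exact this.1
    · exact this.2.1
    · exact this.2.2

private def fq (n0 x y : F) : F := x ^ 2 + x * y + n0 * y ^ 2

private theorem fq_ne {n0 : F} (h : ∀ x : F, x ^ 2 + x + n0 ≠ 0) {x y : F}
    (hf : fq n0 x y = 0) : x = 0 ∧ y = 0 := by
  by_cases hy : y = 0
  · subst hy
    have : x ^ 2 = 0 := by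
      have := hf
      unfold fq at this
      linear_combination this
    exact ⟨pow_eq_zero_iff (two_ne_zero) |>.1 this, rfl⟩
  · exfalso
    refine h (x / y) ?_
    unfold fq at hf
    field_simp
    linear_combination hf

private theorem exists_n0 [Fintype F] : ∃ n0 : F, ∀ x : F, x ^ 2 + x + n0 ≠ 0 := by
  by_contra hc
  push Not at hc
  have hs : Function.Surjective fun x : F => x ^ 2 + x := by
    intro y
    obtain ⟨x, hx⟩ := hc (-y)
    exact ⟨x, by linear_combination hx⟩
  have hi := Finite.injective_iff_surjective.2 hs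
  have h1 : (0 : F) = -1 := hi (by ring)
  exact one_ne_zero (α := F) (by linear_combination h1)

/-- All three in the same fibre. -/
private theorem same {n0 : F} (h : ∀ x : F, x ^ 2 + x + n0 ≠ 0) {a b c x1 x2 x3 y1 y2 y3 : F}
    (h0 : a + b + c = 0) (hx : a * x1 + b * x2 + c * x3 = 0) (hy : a * y1 + b * y2 + c * y3 = 0)
    (hf : a * fq n0 x1 y1 + b * fq n0 x2 y2 + c * fq n0 x3 y3 = 0)
    (h12 : (x1, y1) ≠ (x2, y2)) (h13 : (x1, y1) ≠ (x3, y3)) (h23 : (x2, y2) ≠ (x3, y3)) :
    a = 0 ∧ b = 0 ∧ c = 0 := by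
  have hu1 : a * (x1 - x3) + b * (x2 - x3) = 0 := by linear_combination hx - x3 * h0
  have hu2 : a * (y1 - y3) + b * (y2 - y3) = 0 := by linear_combination hy - y3 * h0
  have hq : a * fq n0 (x1 - x3) (y1 - y3) + b * fq n0 (x2 - x3) (y2 - y3) = 0 := by
    unfold fq at hf ⊢
    linear_combination hf - (2 * x3 + y3) * hx - (x3 + 2 * n0 * y3) * hy +
      (x3 ^ 2 + x3 * y3 + n0 * y3 ^ 2) * h0
  have hw : fq n0 (x2 - x3) (y2 - y3) ≠ 0 := by
    intro h1
    obtain ⟨h2, h3⟩ := fq_ne h h1
    exact h23 (Prod.ext (by linear_combination h2) (by linear_combination h3))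
  have ha : a = 0 := by
    by_contra ha
    have hb : b ≠ 0 := by
      rintro rfl
      rw [zero_mul, add_zero] at hu1 hu2
      exact h13 (Prod.ext (sub_eq_zero.1 ((mul_eq_zero.1 hu1).resolve_left ha))
        (sub_eq_zero.1 ((mul_eq_zero.1 hu2).resolve_left ha)))
    have h1 : b * ((a + b) * fq n0 (x2 - x3) (y2 - y3)) = 0 := by
      have e : a ^ 2 * fq n0 (x1 - x3) (y1 - y3) = b ^ 2 * fq n0 (x2 - x3) (y2 - y3) := by
        have e1 : a * (x1 - x3) = -(b * (x2 - x3)) := by linear_combination hu1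
        have e2 : a * (y1 - y3) = -(b * (y2 - y3)) := by linear_combination hu2
        have e3 : a ^ 2 * fq n0 (x1 - x3) (y1 - y3) =
            fq n0 (a * (x1 - x3)) (a * (y1 - y3)) := by unfold fq; ring
        rw [e3, e1, e2]
        unfold fq
        ring
      linear_combination a * hq - e
    have h2 : a + b = 0 := (mul_eq_zero.1 ((mul_eq_zero.1 h1).resolve_left hb)).resolve_right hw
    have h3 : a * (x1 - x2) = 0 := by linear_combination hu1 - (x2 - x3) * h2
    have h4 : a * (y1 - y2) = 0 := by linear_combination hu2 - (y2 - y3) * h2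
    exact h12 (Prod.ext (sub_eq_zero.1 ((mul_eq_zero.1 h3).resolve_left ha))
      (sub_eq_zero.1 ((mul_eq_zero.1 h4).resolve_left ha)))
  subst ha
  have hb : b = 0 := by
    rw [zero_mul, zero_add] at hq
    exact (mul_eq_zero.1 hq).resolve_right hw
  subst hb
  exact ⟨rfl, rfl, by linear_combination h0⟩

private def pv {n N : ℕ} (p : Fin N → (Fin n → F)) (n0 : F) (i : Fin N × F × F) :
    Fin (n + 3) → F :=
  Fin.append (p i.1) ![i.2.1, i.2.2, fq n0 i.2.1 i.2.2]

private theorem comps {n N : ℕ} {p : Fin N → (Fin n → F)} {n0 : F} {i j k : Fin N × F × F}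
    {a b c : F} (h : a • pv p n0 i + b • pv p n0 j + c • pv p n0 k = 0) :
    a • p i.1 + b • p j.1 + c • p k.1 = 0 ∧ a * i.2.1 + b * j.2.1 + c * k.2.1 = 0 ∧
      a * i.2.2 + b * j.2.2 + c * k.2.2 = 0 ∧
      a * fq n0 i.2.1 i.2.2 + b * fq n0 j.2.1 j.2.2 + c * fq n0 k.2.1 k.2.2 = 0 := by
  refine ⟨funext fun l => ?_, ?_, ?_, ?_⟩
  · have := congrFun h (Fin.castAdd 3 l)
    simpa [pv, Fin.append_left] using this
  · have := congrFun h (Fin.natAdd n 0)
    simpa [pv, Fin.append_right] using this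
  · have := congrFun h (Fin.natAdd n 1)
    simpa [pv, Fin.append_right] using this
  · have := congrFun h (Fin.natAdd n 2)
    simpa [pv, Fin.append_right] using this

/-- Two in the same fibre. -/
private theorem two {n N : ℕ} {p : Fin N → (Fin n → F)} {n0 : F}
    (hp : ∀ i k, i ≠ k → ∀ a b : F, a • p i + b • p k = 0 → a = 0 ∧ b = 0)
    {i j k : Fin N × F × F} (hij : i.1 = j.1) (hne : i ≠ j) (hik : i.1 ≠ k.1) {a b c : F}
    (h : a • pv p n0 i + b • pv p n0 j + c • pv p n0 k = 0) : a = 0 ∧ b = 0 ∧ c = 0 := by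
  obtain ⟨h1, h2, h3, -⟩ := comps h
  rw [← hij, ← add_smul] at h1
  obtain ⟨h4, rfl⟩ := hp _ _ hik _ _ h1
  rw [zero_mul, add_zero] at h2 h3
  have h5 : a * (i.2.1 - j.2.1) = 0 := by linear_combination h2 - j.2.1 * h4
  have h6 : a * (i.2.2 - j.2.2) = 0 := by linear_combination h3 - j.2.2 * h4
  have ha : a = 0 := by
    by_contra ha
    exact hne (Prod.ext hij (Prod.ext (sub_eq_zero.1 ((mul_eq_zero.1 h5).resolve_left ha))
      (sub_eq_zero.1 ((mul_eq_zero.1 h6).resolve_left ha))))
  subst ha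
  exact ⟨rfl, by linear_combination h4, rfl⟩

end

theorem tProd : S_Prod := by
  intro F _ _ n N hN ⟨p, hp⟩
  obtain ⟨n0, hn0⟩ := exists_n0 (F := F)
  have hp2 : ∀ i k, i ≠ k → ∀ a b : F, a • p i + b • p k = 0 → a = 0 ∧ b = 0 := by
    intro i k hik a b h
    obtain ⟨j, hj⟩ : ∃ j : Fin N, j ∉ ({i, k} : Finset (Fin N)) := by
      by_contra hc
      push Not at hc
      have h1 : (univ : Finset (Fin N)).card ≤ ({i, k} : Finset (Fin N)).card :=
        Finset.card_le_card fun j _ => hc j
      have h2 : ({i, k} : Finset (Fin N)).card ≤ 2 := Finset.card_le_two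
      rw [Finset.card_univ, Fintype.card_fin] at h1
      omega
    simp only [Finset.mem_insert, Finset.mem_singleton, not_or] at hj
    obtain ⟨h1, h2, -⟩ := li3.1 (hp i k j hik (Ne.symm hj.1) (Ne.symm hj.2)) a b 0
      (by rw [zero_smul, add_zero, h])
    exact ⟨h1, h2⟩
  have hp1 : ∀ i, ∀ a : F, a • p i = 0 → a = 0 := by
    intro i a h
    obtain ⟨k, hk⟩ : ∃ k : Fin N, k ≠ i := by
      by_contra hc
      push Not at hc
      have h1 : (univ : Finset (Fin N)).card ≤ ({i} : Finset (Fin N)).card :=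
        Finset.card_le_card fun j _ => Finset.mem_singleton.2 (hc j)
      rw [Finset.card_univ, Fintype.card_fin, Finset.card_singleton] at h1
      omega
    exact (hp2 i k (Ne.symm hk) a 0 (by rw [zero_smul, add_zero, h])).1
  have key : ∀ i j k : Fin N × F × F, i ≠ j → i ≠ k → j ≠ k →
      LinearIndependent F ![pv p n0 i, pv p n0 j, pv p n0 k] := by
    intro i j k hij hik hjk
    rw [li3]
    intro a b c h
    by_cases e1 : i.1 = j.1
    · by_cases e2 : i.1 = k.1
      · obtain ⟨h1, h2, h3, h4⟩ := comps h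
        rw [← e1, ← e2, ← add_smul, ← add_smul] at h1
        refine same hn0 (hp1 _ _ h1) h2 h3 h4 ?_ ?_ ?_
        · exact fun hc => hij (Prod.ext e1 hc)
        · exact fun hc => hik (Prod.ext e2 hc)
        · exact fun hc => hjk (Prod.ext (e1.symm.trans e2) hc)
      · exact two hp2 e1 hij e2 h
    · by_cases e2 : i.1 = k.1
      · obtain ⟨h1, h2, h3⟩ := two hp2 e2 hik e1 (a := a) (b := c) (c := b) (n0 := n0)
          (by rw [← h]; abel)
        exact ⟨h1, h3, h2⟩
      · by_cases e3 : j.1 = k.1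
        · obtain ⟨h1, h2, h3⟩ := two hp2 e3 hjk (fun hc => e1 hc.symm) (a := b) (b := c) (c := a)
            (n0 := n0) (by rw [← h]; abel)
          exact ⟨h3, h1, h2⟩
        · exact li3.1 (hp _ _ _ e1 e2 e3) a b c (comps h).1
  have hcard : Fintype.card (Fin N × F × F) = Fintype.card F ^ 2 * N := by
    rw [Fintype.card_prod, Fintype.card_prod, Fintype.card_fin]
    ring
  let e := Fintype.equivFinOfCardEq hcard
  refine ⟨fun i => pv p n0 (e.symm i), fun i j k hij hik hjk => key _ _ _ ?_ ?_ ?_⟩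
  · exact fun hc => hij (e.symm.injective hc)
  · exact fun hc => hik (e.symm.injective hc)
  · exact fun hc => hjk (e.symm.injective hc)

end Pool.Agent.CapFive
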